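import Pool.Agent.H433.CR.Vol
import Pool.Agent.H433.CQ.Pol
import Pool.Agent.H433.AC.Rel6

/-!
The size of the complex roots, and the archimedean part of the height.
-/

set_option autoImplicit false
set_option linter.unusedSectionVars false
set_option linter.unusedVariables false

open NumberField IsDedekindDomain Finset Polynomial

namespace Pool.Agent.H433.CR

open Pool.Agent.H433.AC (box prs Nm Nm_emb Nm_ne card_prs)

variable {K : Type} [Field K] [NumberField K]

/-- the size of the critical values and of the roots -/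
theorem exists_boundC (hP : CP.S_P1) (K : Type) [Field K] [NumberField K] (m : ℕ) (A : ℝ)
    (hA : 1 ≤ A) : ∃ B C₀ : ℝ, 1 ≤ B ∧ 1 ≤ C₀ ∧ ∀ T : ℕ, 1 ≤ T → ∀ (φ : (𝓞 K)[X]) (c : Fin m → 𝓞 K),
      CQ.Crit m A T φ c → ∀ t ∈ box K T, (∀ i, ∀ σ : K →+* ℂ,
        ‖σ ((t - φ.eval (c i) : 𝓞 K) : K)‖ ≤ (B + C₀) * T) ∧
      ∀ (σ : K →+* ℂ) (z : ℂ), ((φ - C t).map (σ.comp (algebraMap (𝓞 K) K))).eval z = 0 →
        ‖z‖ ≤ B * (T : ℝ) ^ ((m + 1 : ℝ)⁻¹) := by
  obtain ⟨C₀, hC₀, hbox⟩ := AC.box_size K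
  obtain ⟨B, hB, hB'⟩ := hP m (1 + C₀) (by linarith)
  refine ⟨B * A, C₀, by nlinarith, hC₀, fun T hT φ c hc t ht => ?_⟩
  have hT0 : (0 : ℝ) < T := by exact_mod_cast hT
  have hAT : 0 < A * T := by positivity
  set ρ : ℝ := (A * T) ^ ((m + 1 : ℝ)⁻¹) with hρ
  have hρ0 : 0 < ρ := Real.rpow_pos_of_pos hAT _
  have hn0 : (m + 1 : ℝ) ≠ 0 := by positivity
  have hρn : ρ ^ (m + 1) = A * T := by
    rw [hρ, ← Real.rpow_natCast, ← Real.rpow_mul hAT.le]
    push_cast
    rw [inv_mul_cancel₀ hn0, Real.rpow_one]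
  have hcρ (i : Fin m) (σ : K →+* ℂ) : ‖σ (c i : K)‖ ≤ ρ := by
    have h1 := hc.size i σ
    rw [← hρn] at h1
    exact (pow_le_pow_iff_left₀ (norm_nonneg _) hρ0.le (by omega)).1 h1
  have hρA : ρ ≤ A * (T : ℝ) ^ ((m + 1 : ℝ)⁻¹) := by
    rw [hρ, Real.mul_rpow (by linarith) hT0.le]
    refine mul_le_mul_of_nonneg_right ?_ (by positivity)
    calc A ^ ((m + 1 : ℝ)⁻¹) ≤ A ^ (1 : ℝ) := by
          refine Real.rpow_le_rpow_of_exponent_le hA ?_
          rw [inv_le_one₀ (by positivity)]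
          have : (0 : ℝ) ≤ m := Nat.cast_nonneg m
          linarith
      _ = A := Real.rpow_one A
  -- the polynomials over `ℂ`
  have key (t : 𝓞 K) (ht : ∀ σ : K →+* ℂ, ‖σ (t : K)‖ ≤ C₀ * T) (σ : K →+* ℂ) :
      (∀ z, ((φ - C t).map (σ.comp (algebraMap (𝓞 K) K))).eval z = 0 → ‖z‖ ≤ B * ρ) ∧
      ∀ i, ‖((φ - C t).map (σ.comp (algebraMap (𝓞 K) K))).eval (σ (c i : K))‖ ≤
        B * ρ ^ (m + 1) := by
    have hdeg : (φ - C t).natDegree = m + 1 := by
      rw [natDegree_sub_C, hc.deg]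
    have hmon : (φ - C t).Monic := by
      refine hc.monic.sub_of_left ?_
      rw [degree_eq_natDegree hc.monic.ne_zero, hc.deg]
      refine lt_of_le_of_lt degree_C_le ?_
      rw [← Nat.cast_zero]
      exact_mod_cast Nat.succ_pos _
    refine hB' _ (fun i => σ (c i : K)) ρ hρ0 (hmon.map _) ?_ ?_ (fun i => hcρ i σ) ?_
    · rw [hmon.natDegree_map, hdeg]
    · rw [derivative_map, derivative_sub, derivative_C, sub_zero, hc.der, Polynomial.map_mul,
        Polynomial.map_prod, map_C]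
      congr 1
      · congr 1
        rw [map_natCast]
        push_cast
        rfl
      · refine prod_congr rfl fun i _ => ?_
        rw [Polynomial.map_sub, map_X, map_C]
        rfl
    · rw [hρn, ← coeff_zero_eq_eval_zero, coeff_map, coeff_sub, coeff_C_zero, map_sub]
      refine (norm_sub_le _ _).trans ?_
      have h1 := hc.zero σ
      have h2 := ht σ
      have h3 : C₀ * T ≤ C₀ * (A * T) := by
        refine mul_le_mul_of_nonneg_left ?_ (by linarith)
        exact le_mul_of_one_le_left hT0.le hA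
      have e1 : (σ.comp (algebraMap (𝓞 K) K)) (φ.coeff 0) = σ (φ.coeff 0 : K) := rfl
      have e2 : (σ.comp (algebraMap (𝓞 K) K)) t = σ (t : K) := rfl
      rw [e1, e2]
      linarith
  refine ⟨fun i σ => ?_, fun σ z hz => ?_⟩
  · have h1 := (key 0 (fun σ => by simp; positivity) σ).2 i
    rw [C_0, sub_zero, hρn] at h1
    have e1 : (φ.map (σ.comp (algebraMap (𝓞 K) K))).eval (σ (c i : K)) =
        σ ((φ.eval (c i) : 𝓞 K) : K) := by
      have : (σ (c i : K)) = (σ.comp (algebraMap (𝓞 K) K)) (c i) := rfl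
      rw [this, eval_map_apply]
      rfl
    rw [e1] at h1
    have e2 : σ ((t - φ.eval (c i) : 𝓞 K) : K) = σ (t : K) - σ ((φ.eval (c i) : 𝓞 K) : K) := by
      rw [← map_sub]
      rfl
    rw [e2]
    refine (norm_sub_le _ _).trans ?_
    have h2 := hbox T t ht σ
    calc _ ≤ C₀ * T + B * (A * T) := add_le_add h2 h1
      _ = (B * A + C₀) * T := by ring
  · have h1 := (key t (fun σ => hbox T t ht σ) σ).1 z hz
    refine h1.trans ?_
    calc B * ρ ≤ B * (A * (T : ℝ) ^ ((m + 1 : ℝ)⁻¹)) :=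
          mul_le_mul_of_nonneg_left hρA (by linarith)
      _ = _ := by ring

/-- the discriminant of the conjugate polynomials -/
theorem norm_discr {f : (𝓞 K)[X]} {n : ℕ} (hf : f.Monic) (hn : f.natDegree = n + 1)
    (σ : K →+* ℂ) : ‖(f.map (σ.comp (algebraMap (𝓞 K) K))).discr‖ = ‖σ (f.discr : K)‖ := by
  set τ := σ.comp (algebraMap (𝓞 K) K) with hτ
  have hinj : Function.Injective τ := σ.injective.comp RingOfIntegers.coe_injective
  have hm : (f.map τ).Monic := hf.map τ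
  have hd : (f.map τ).natDegree = n + 1 := by rw [hf.natDegree_map, hn]
  obtain ⟨z, hz⟩ := exists_roots hm hd
  obtain ⟨k, hk⟩ := EW.discr_map τ hinj hn (by omega) (r := z) (by
    rw [hf.leadingCoeff, map_one, C_1, one_mul, hz])
  obtain ⟨k', hk'⟩ := EW.discr_map (RingHom.id ℂ) Function.injective_id hd (by omega)
    (r := z) (by rw [Polynomial.map_id, hm.leadingCoeff, RingHom.id_apply, C_1, one_mul, hz])
  rw [RingHom.id_apply, RingHom.id_apply, hm.leadingCoeff, one_pow, mul_one] at hk'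
  rw [hf.leadingCoeff, map_one, one_pow, mul_one] at hk
  have e1 : σ (f.discr : K) = τ f.discr := rfl
  rw [e1, hk, hk', norm_mul, norm_mul, norm_pow, norm_pow]
  simp

/-- the archimedean part of the height -/
theorem arch_sum {g m : ℕ} (hm : m = 2 * g ∨ m = 2 * g + 1) : ∃ C₂ : ℝ, 0 ≤ C₂ ∧
    ∀ (K : Type) [Field K] [NumberField K] (f : (𝓞 K)[X]) (R : ℝ), 0 < R → f.Monic →
      f.natDegree = m + 1 → f.discr ≠ 0 →
      (∀ (σ : K →+* ℂ) (z : ℂ), (f.map (σ.comp (algebraMap (𝓞 K) K))).eval z = 0 → ‖z‖ ≤ R) →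
      (∑ σ : K →+* ℂ, -(1 / 2) * Real.log (vol g (f.map (σ.comp (algebraMap (𝓞 K) K))))) ≤
        Module.finrank ℚ K * (m * g / (8 * g + 4) * (m + 1) * Real.log R + C₂) ∧
      Module.finrank ℚ K * (m * g / (8 * g + 4) * (m + 1) * Real.log R - C₂) -
        g * ((m + 1) / 2) * (Module.finrank ℚ K * ((m + 1) * m / 2 * Real.log (2 * R)) -
          1 / 2 * Real.log (Nm f.discr)) ≤
      ∑ σ : K →+* ℂ, -(1 / 2) * Real.log (vol g (f.map (σ.comp (algebraMap (𝓞 K) K)))) := by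
  obtain ⟨C₂, hC₂, h⟩ := arch_both hm
  refine ⟨C₂, hC₂, fun K _ _ f R hR hf hn hD hz => ?_⟩
  have hcard : ((univ : Finset (K →+* ℂ)).card : ℝ) = Module.finrank ℚ K := by
    rw [card_univ, Embeddings.card K ℂ]
  have hσD (σ : K →+* ℂ) : (f.map (σ.comp (algebraMap (𝓞 K) K))).discr ≠ 0 := by
    rw [← norm_ne_zero_iff, norm_discr hf hn, norm_ne_zero_iff]
    exact (map_ne_zero σ).2 (by exact_mod_cast hD)
  have hh (σ : K →+* ℂ) := h (f.map (σ.comp (algebraMap (𝓞 K) K))) R hR (hf.map _)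
    (by rw [hf.natDegree_map, hn]) (hσD σ) (hz σ)
  have hlog : Real.log (Nm f.discr) =
      ∑ σ : K →+* ℂ, Real.log ‖(f.map (σ.comp (algebraMap (𝓞 K) K))).discr‖ := by
    rw [Nm_emb, Real.log_prod fun σ _ => ?_]
    · exact sum_congr rfl fun σ _ => by rw [norm_discr hf hn]
    · rw [norm_ne_zero_iff]
      exact (map_ne_zero σ).2 (by exact_mod_cast hD)
  constructor
  · refine (sum_le_sum fun σ _ => (hh σ).1).trans (le_of_eq ?_)
    rw [sum_const, nsmul_eq_mul, hcard]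
  · refine le_trans (le_of_eq ?_) (sum_le_sum fun σ _ => (hh σ).2)
    simp only [sum_sub_distrib, ← mul_sum, sum_const, nsmul_eq_mul, hcard, ← hlog, card_prs]
    push_cast
    ring

end Pool.Agent.H433.CR
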