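import Pool.Agent.H433.AC.Def
import Mathlib.RingTheory.Polynomial.Resultant.Basic

/-!
Definitions: the height and the conductor of the Jacobians of the curves `e y ^ 2 = f(x)`, where `f`
is a monic polynomial of degree `2 g + 1` or `2 g + 2` over the ring of integers of `K`.
-/

set_option autoImplicit false

open NumberField IsDedekindDomain MeasureTheory Finset Polynomial
open scoped ENNReal

namespace Pool.Agent.H433.CR

open Pool.Agent.H433.AC (nv od)

variable {K : Type} [Field K] [NumberField K]

/-- The integral over `ℂ ^ g` of `∏_{s < t} |x_s - x_t| ^ 2 ∏_s |F(x_s)| ^ (- 1)`. Up to a constant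
which depends on `g` only this is the square of the `L²` norm of `∧_{i < g} x ^ i dx / y` on the
Jacobian of the curve `y ^ 2 = F(x)`. -/
noncomputable def vol (g : ℕ) (F : ℂ[X]) : ℝ :=
  (∫⁻ x : Fin g → ℂ, ‖(Matrix.vandermonde x).det‖ₑ ^ 2 * ∏ s, ‖F.eval (x s)‖ₑ⁻¹).toReal

open Classical in
/-- The degree of the metrized line bundle generated by the differentials `∧_{i < g} x ^ i dx / y` of
the Weierstrass models of the curve `e y ^ 2 = f(x)`, up to the places dividing `2`: this is an upper
bound for `[K : ℚ] h_F`, the relative Faltings height of the Jacobian, up to a constant. -/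
noncomputable def height (g : ℕ) (f : (𝓞 K)[X]) (e : K) : ℝ :=
  (∑ σ : K →+* ℂ, -(1 / 2) * Real.log (vol g (f.map (σ.comp (algebraMap (𝓞 K) K))))) +
    g / 2 * ∑ᶠ v : HeightOneSpectrum (𝓞 K),
      if (2 : 𝓞 K) ∉ v.asIdeal ∧ Odd (od v e) then Real.log (nv v) else 0

open Classical in
/-- The exponent of the conductor of the Jacobian of the curve `e y ^ 2 = f(x)` at `v`, if `v` does not
divide `2` and divides the discriminant of `f` at most once; and `0` for the other places. -/
noncomputable def expo (g : ℕ) (f : (𝓞 K)[X]) (e : K) (v : HeightOneSpectrum (𝓞 K)) : ℕ :=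
  if (2 : 𝓞 K) ∉ v.asIdeal ∧ f.discr ∉ v.asIdeal ^ 2 then
    (if Odd (od v e) then 2 * g else if f.discr ∈ v.asIdeal then 1 else 0) else 0

/-- the part of the conductor at these places -/
noncomputable def cond (g : ℕ) (f : (𝓞 K)[X]) (e : K) : ℕ :=
  ∏ᶠ v : HeightOneSpectrum (𝓞 K), nv v ^ expo g f e v

end Pool.Agent.H433.CR
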