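import Pool.Agent.H433.CR.Def
import Pool.Agent.H433.CQ.Def

/-!
Definitions: the inequalities of Frey for the curves `e y ^ 2 = f(x)`.
-/

set_option autoImplicit false

open NumberField IsDedekindDomain Finset Polynomial

namespace Pool.Agent.H433.CR

variable {K : Type} [Field K] [NumberField K]

/-- The logarithm of the norm of the discriminant, without the primes which divide it exactly
once. -/
noncomputable def exc (f : (𝓞 K)[X]) : ℝ :=
  Real.log (Ideal.absNorm (Ideal.span {f.discr})) - HD.once f.discr

/-- The inequality of Frey with the slope `κ` is true for the stable height and for all the twists,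
and the inequality with the slope `κ'` is false for the curve itself, for all possible contributions
(between `- B exc f` and `B exc f`) of the primes whose square divides the discriminant. -/
def Sharp (g : ℕ) (κ κ' B c₀ : ℝ) (f : (𝓞 K)[X]) : Prop :=
  f.discr ≠ 0 ∧
  (∀ e : K, e ≠ 0 → height g f 1 + c₀ ≤ κ * Real.log (cond g f e)) ∧
  κ' * (Real.log (cond g f 1) + B * exc f) + c₀ ≤ height g f 1 - B * exc f

/-- The inequality of Frey with the slope `κ` is true for the relative heights of all the twists. -/
def FreyAll (g : ℕ) (κ c₀ : ℝ) (f : (𝓞 K)[X]) : Prop :=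
  f.discr ≠ 0 ∧ ∀ e : K, e ≠ 0 → height g f e + c₀ ≤ κ * Real.log (cond g f e)

end Pool.Agent.H433.CR
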