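import Pool.Agent.H433.CR.Def
import Pool.Agent.H433.CP.Fac
import Pool.Agent.H433.AC.Fin

/-!
The finite part of the height, and the conductor.
-/

set_option autoImplicit false
set_option linter.unusedSectionVars false
set_option linter.unusedVariables false

open NumberField IsDedekindDomain Finset Polynomial

namespace Pool.Agent.H433.CR

open Pool.Agent.H433.AC (nv od Nm Nm_ne Nm_prod mp le_mp mem_iff_mp finite_mem finite_od log_nv_pos
  one_lt_nv od_one Nm_emb)
open Pool.Agent.H433.HD (Once once)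

variable {K : Type} [Field K] [NumberField K]

open Classical in
/-- the sum of the `log N v` for the places `v ∈ W` with the property `P` -/
noncomputable def sm (W : Finset (HeightOneSpectrum (𝓞 K))) (P : HeightOneSpectrum (𝓞 K) → Prop) :
    ℝ := ∑ v ∈ W, if P v then Real.log (nv v) else 0

open Classical in
theorem once_sm {D : 𝓞 K} {W : Finset (HeightOneSpectrum (𝓞 K))}
    (hW : ∀ v : HeightOneSpectrum (𝓞 K), D ∈ v.asIdeal → v ∈ W) : once D = sm W (Once D) := by
  unfold once sm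
  refine finsum_eq_sum_of_support_subset (s := W) _ fun v hv => ?_
  rw [Function.mem_support] at hv
  rw [mem_coe]
  refine hW v ?_
  by_contra hcon
  rw [if_neg fun h => hcon h.1] at hv
  exact hv rfl

/-- the norm of the discriminant -/
theorem sm_sq {D : 𝓞 K} (hD : D ≠ 0) {W : Finset (HeightOneSpectrum (𝓞 K))}
    (hW : ∀ v : HeightOneSpectrum (𝓞 K), D ∈ v.asIdeal → v ∈ W) :
    sm W (fun v => D ∈ v.asIdeal ^ 2) + once D ≤ Real.log (Nm D) := by
  classical
  rw [once_sm hW, Nm_prod hD W hW]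
  push_cast
  rw [Real.log_prod fun v _ => by
    have := one_lt_nv v
    positivity]
  unfold sm
  rw [← sum_add_distrib]
  refine sum_le_sum fun v _ => ?_
  have h1 := log_nv_pos v
  rw [Real.log_pow]
  by_cases h2 : D ∈ v.asIdeal ^ 2
  · have h3 : ¬ Once D v := fun h => h.2 h2
    rw [if_pos h2, if_neg h3, add_zero]
    have h4 : (2 : ℝ) ≤ mp v D := by exact_mod_cast (le_mp hD 2).1 h2
    nlinarith
  · rw [if_neg h2, zero_add]
    split_ifs with h3
    · have h4 : (1 : ℝ) ≤ mp v D := by exact_mod_cast (mem_iff_mp hD).1 h3.1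
      nlinarith
    · positivity

theorem sm_two (W : Finset (HeightOneSpectrum (𝓞 K))) :
    sm W (fun v => (2 : 𝓞 K) ∈ v.asIdeal) ≤ Module.finrank ℚ K * Real.log 2 := by
  classical
  have h20 : (2 : 𝓞 K) ≠ 0 := by norm_num
  set V := W ∪ (finite_mem h20).toFinset with hV
  have hV2 : ∀ v : HeightOneSpectrum (𝓞 K), (2 : 𝓞 K) ∈ v.asIdeal → v ∈ V := fun v hv => by
    rw [hV, mem_union, Set.Finite.mem_toFinset]
    exact Or.inr hv
  have h1 : sm W (fun v => (2 : 𝓞 K) ∈ v.asIdeal) ≤ sm V (fun v => (2 : 𝓞 K) ∈ v.asIdeal) := by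
    unfold sm
    refine sum_le_sum_of_subset_of_nonneg subset_union_left fun v _ _ => ?_
    have := (log_nv_pos v).le
    split_ifs
    · exact this
    · exact le_rfl
  have h2 : (Nm (2 : 𝓞 K) : ℝ) = 2 ^ Module.finrank ℚ K := by
    rw [Nm_emb, ← Embeddings.card K ℂ, ← card_univ, ← prod_const]
    refine prod_congr rfl fun σ _ => ?_
    have : σ (((2 : 𝓞 K)) : K) = 2 := by
      have : (((2 : 𝓞 K)) : K) = 2 := rfl
      rw [this, map_ofNat]
    rw [this]
    norm_num
  have h3 : sm V (fun v => (2 : 𝓞 K) ∈ v.asIdeal) ≤ Real.log (Nm (2 : 𝓞 K)) := by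
    rw [Nm_prod h20 V hV2]
    push_cast
    rw [Real.log_prod fun v _ => by
      have := one_lt_nv v
      positivity]
    unfold sm
    refine sum_le_sum fun v _ => ?_
    have h1 := log_nv_pos v
    rw [Real.log_pow]
    split_ifs with h3
    · have h4 : (1 : ℝ) ≤ mp v (2 : 𝓞 K) := by exact_mod_cast (mem_iff_mp h20).1 h3
      nlinarith
    · positivity
  rw [h2, Real.log_pow] at h3
  exact h1.trans h3

/-- the places which matter -/
theorem exists_W {D : 𝓞 K} (hD : D ≠ 0) {e : K} (he : e ≠ 0) :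
    ∃ W : Finset (HeightOneSpectrum (𝓞 K)),
      (∀ v : HeightOneSpectrum (𝓞 K), D ∈ v.asIdeal → v ∈ W) ∧ ∀ v, od v e ≠ 0 → v ∈ W := by
  classical
  refine ⟨(finite_mem hD).toFinset ∪ (finite_od he).toFinset, fun v hv => ?_, fun v hv => ?_⟩
  · rw [mem_union, Set.Finite.mem_toFinset]
    exact Or.inl hv
  · rw [mem_union, Set.Finite.mem_toFinset, Set.Finite.mem_toFinset]
    exact Or.inr hv

theorem log_cond {g : ℕ} {f : (𝓞 K)[X]} {e : K} {W : Finset (HeightOneSpectrum (𝓞 K))}
    (hW : ∀ v : HeightOneSpectrum (𝓞 K), f.discr ∈ v.asIdeal → v ∈ W)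
    (hW' : ∀ v, od v e ≠ 0 → v ∈ W) :
    Real.log (cond g f e) = ∑ v ∈ W, (expo g f e v : ℝ) * Real.log (nv v) := by
  classical
  unfold cond
  rw [finprod_eq_prod_of_mulSupport_subset (s := W) _ fun v hv => ?_]
  · push_cast
    rw [Real.log_prod fun v _ => by
      have := one_lt_nv v
      positivity]
    exact sum_congr rfl fun v _ => Real.log_pow _ _
  · rw [Function.mem_mulSupport] at hv
    rw [mem_coe]
    by_contra hcon
    apply hv
    have h1 : f.discr ∉ v.asIdeal := fun h => hcon (hW v h)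
    have h2 : od v e = 0 := by
      by_contra h
      exact hcon (hW' v h)
    have h3 : expo g f e v = 0 := by
      unfold expo
      rw [h2, if_neg h1]
      simp
    rw [h3, pow_zero]

open Classical in
theorem fin_part {g : ℕ} {e : K} {W : Finset (HeightOneSpectrum (𝓞 K))}
    (hW' : ∀ v, od v e ≠ 0 → v ∈ W) :
    (∑ᶠ v : HeightOneSpectrum (𝓞 K),
      if (2 : 𝓞 K) ∉ v.asIdeal ∧ Odd (od v e) then Real.log (nv v) else 0) =
      sm W fun v => (2 : 𝓞 K) ∉ v.asIdeal ∧ Odd (od v e) := by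
  unfold sm
  refine (finsum_eq_sum_of_support_subset (s := W) _ ?_).trans (sum_congr rfl fun v _ => ?_)
  · intro v hv
    rw [Function.mem_support] at hv
    rw [mem_coe]
    refine hW' v fun h0 => ?_
    apply hv
    rw [if_neg]
    rw [h0]
    exact fun h => absurd h.2 (by decide)
  · by_cases h : (2 : 𝓞 K) ∉ v.asIdeal ∧ Odd (od v e)
    · rw [if_pos h]
      exact (if_pos h).symm
    · rw [if_neg h]
      exact (if_neg h).symm

/-- the relative height and all twists -/
theorem rel_le {g : ℕ} (hg : 1 ≤ g) {f : (𝓞 K)[X]} (hD : f.discr ≠ 0) {e : K} (he : e ≠ 0)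
    {κ μ : ℝ} (hκ : 1 / 4 ≤ κ) (hμ0 : 0 ≤ μ) (hμ : μ ≤ κ) (hμ' : μ ≤ 2 * g * κ - g / 2) {X : ℝ}
    (hX : X ≤ μ * (once f.discr - Module.finrank ℚ K * Real.log 2) -
      g / 2 * (Real.log (Nm f.discr) - once f.discr)) :
    X + (height g f e - height g f 1) ≤ κ * Real.log (cond g f e) := by
  classical
  obtain ⟨W, hW, hW'⟩ := exists_W hD he
  have h1 : height g f e - height g f 1 =
      g / 2 * sm W fun v => (2 : 𝓞 K) ∉ v.asIdeal ∧ Odd (od v e) := by
    unfold height
    rw [fin_part (g := g) hW']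
    have h0 : (∑ᶠ v : HeightOneSpectrum (𝓞 K),
        if (2 : 𝓞 K) ∉ v.asIdeal ∧ Odd (od v (1 : K)) then Real.log (nv v) else 0) = 0 := by
      refine finsum_eq_zero_of_forall_eq_zero fun v => ?_
      rw [od_one, if_neg fun h => absurd h.2 (by decide)]
    rw [h0]
    ring
  have h2 := sm_sq hD hW
  have h3 := sm_two W
  have h4 : once f.discr - sm W (fun v => (2 : 𝓞 K) ∈ v.asIdeal) ≤
      sm W (fun v => (2 : 𝓞 K) ∉ v.asIdeal ∧ Once f.discr v) := by
    rw [once_sm hW]
    unfold sm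
    rw [← sum_sub_distrib]
    refine sum_le_sum fun v _ => ?_
    have := (log_nv_pos v).le
    by_cases h5 : (2 : 𝓞 K) ∈ v.asIdeal
    · rw [if_pos h5, if_neg fun h : (2 : 𝓞 K) ∉ v.asIdeal ∧ Once f.discr v => h.1 h5]
      split_ifs <;> linarith
    · rw [if_neg h5]
      by_cases h6 : Once f.discr v
      · rw [if_pos h6, if_pos ⟨h5, h6⟩, sub_zero]
      · rw [if_neg h6, if_neg fun h : (2 : 𝓞 K) ∉ v.asIdeal ∧ Once f.discr v => h6 h.2, sub_zero]
  have hgR : (0 : ℝ) ≤ g := Nat.cast_nonneg g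
  have hgR1 : (1 : ℝ) ≤ g := by exact_mod_cast hg
  have h5 : μ * sm W (fun v => (2 : 𝓞 K) ∉ v.asIdeal ∧ Once f.discr v) -
      g / 2 * sm W (fun v => f.discr ∈ v.asIdeal ^ 2) ≤
      κ * Real.log (cond g f e) -
        g / 2 * sm W fun v => (2 : 𝓞 K) ∉ v.asIdeal ∧ Odd (od v e) := by
    rw [log_cond hW hW']
    unfold sm
    rw [mul_sum, mul_sum, mul_sum, mul_sum, ← sum_sub_distrib, ← sum_sub_distrib]
    refine sum_le_sum fun v _ => ?_
    have hl := (log_nv_pos v).le
    unfold expo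
    by_cases a1 : (2 : 𝓞 K) ∈ v.asIdeal
    · rw [if_neg fun h : (2 : 𝓞 K) ∉ v.asIdeal ∧ Once f.discr v => h.1 a1,
        if_neg fun h : (2 : 𝓞 K) ∉ v.asIdeal ∧ f.discr ∉ v.asIdeal ^ 2 => h.1 a1,
        if_neg fun h : (2 : 𝓞 K) ∉ v.asIdeal ∧ Odd (od v e) => h.1 a1]
      have : (0 : ℝ) ≤ g / 2 * (if f.discr ∈ v.asIdeal ^ 2 then Real.log (nv v) else 0) := by
        split_ifs <;> positivity
      push_cast
      linarith
    · by_cases a2 : f.discr ∈ v.asIdeal ^ 2
      · rw [if_neg fun h : (2 : 𝓞 K) ∉ v.asIdeal ∧ Once f.discr v => h.2.2 a2, if_pos a2,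
          if_neg fun h : (2 : 𝓞 K) ∉ v.asIdeal ∧ f.discr ∉ v.asIdeal ^ 2 => h.2 a2]
        have h9 : 0 ≤ g / 2 * Real.log (nv v) := by positivity
        push_cast
        by_cases a3 : (2 : 𝓞 K) ∉ v.asIdeal ∧ Odd (od v e)
        · rw [if_pos a3]
          linarith
        · rw [if_neg a3]
          linarith
      · rw [if_neg a2, if_pos (⟨a1, a2⟩ : (2 : 𝓞 K) ∉ v.asIdeal ∧ f.discr ∉ v.asIdeal ^ 2)]
        have a3 : ((2 : 𝓞 K) ∉ v.asIdeal ∧ Once f.discr v) ↔ f.discr ∈ v.asIdeal :=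
          ⟨fun h => h.2.1, fun h => ⟨a1, h, a2⟩⟩
        have a4 : ((2 : 𝓞 K) ∉ v.asIdeal ∧ Odd (od v e)) ↔ Odd (od v e) :=
          ⟨fun h => h.2, fun h => ⟨a1, h⟩⟩
        simp only [a3, a4]
        by_cases a5 : Odd (od v e)
        · rw [if_pos a5, if_pos a5]
          push_cast
          have b1 : μ * (if f.discr ∈ v.asIdeal then Real.log (nv v) else 0) ≤
              μ * Real.log (nv v) := by
            refine mul_le_mul_of_nonneg_left ?_ hμ0
            split_ifs <;> linarith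
          have b2 : μ * Real.log (nv v) ≤ (2 * g * κ - g / 2) * Real.log (nv v) :=
            mul_le_mul_of_nonneg_right hμ' hl
          nlinarith
        · rw [if_neg a5, if_neg a5]
          split_ifs
          · push_cast
            have b2 : μ * Real.log (nv v) ≤ κ * Real.log (nv v) :=
              mul_le_mul_of_nonneg_right hμ hl
            linarith
          · simp
  have h6 : μ * (once f.discr - Module.finrank ℚ K * Real.log 2) ≤
      μ * sm W (fun v => (2 : 𝓞 K) ∉ v.asIdeal ∧ Once f.discr v) :=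
    mul_le_mul_of_nonneg_left (by linarith) hμ0
  have h7 : g / 2 * sm W (fun v => f.discr ∈ v.asIdeal ^ 2) ≤
      g / 2 * (Real.log (Nm f.discr) - once f.discr) :=
    mul_le_mul_of_nonneg_left (by linarith) (by positivity)
  rw [h1]
  linarith

/-- the stable height and all twists -/
theorem stab_le {g : ℕ} (hg : 1 ≤ g) {f : (𝓞 K)[X]} (hD : f.discr ≠ 0) {e : K} (he : e ≠ 0) :
    once f.discr - Module.finrank ℚ K * Real.log 2 ≤ Real.log (cond g f e) := by
  classical
  obtain ⟨W, hW, hW'⟩ := exists_W hD he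
  have h3 := sm_two W
  have hgR1 : (1 : ℝ) ≤ g := by exact_mod_cast hg
  have h4 : once f.discr - sm W (fun v => (2 : 𝓞 K) ∈ v.asIdeal) ≤ Real.log (cond g f e) := by
    rw [log_cond hW hW', once_sm hW]
    unfold sm
    rw [← sum_sub_distrib]
    refine sum_le_sum fun v _ => ?_
    have hl := (log_nv_pos v).le
    have h0 : (0 : ℝ) ≤ (expo g f e v : ℝ) * Real.log (nv v) := by positivity
    by_cases h5 : (2 : 𝓞 K) ∈ v.asIdeal
    · rw [if_pos h5]
      split_ifs <;> linarith
    · rw [if_neg h5]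
      by_cases h6 : Once f.discr v
      · rw [if_pos h6, sub_zero]
        have h7 : (1 : ℝ) ≤ expo g f e v := by
          unfold expo
          rw [if_pos (⟨h5, h6.2⟩ : (2 : 𝓞 K) ∉ v.asIdeal ∧ f.discr ∉ v.asIdeal ^ 2), if_pos h6.1]
          split_ifs
          · push_cast
            linarith
          · simp
        nlinarith
      · rw [if_neg h6]
        linarith
  linarith

/-- the conductor of the curve itself -/
theorem cond_one_le {g : ℕ} {f : (𝓞 K)[X]} (hD : f.discr ≠ 0) :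
    Real.log (cond g f 1) ≤ once f.discr := by
  classical
  obtain ⟨W, hW, hW'⟩ := exists_W hD (one_ne_zero : (1 : K) ≠ 0)
  rw [log_cond hW hW', once_sm hW]
  unfold sm
  refine sum_le_sum fun v _ => ?_
  have hl := (log_nv_pos v).le
  unfold expo
  rw [od_one, if_neg (by decide : ¬ Odd (0 : ℤ))]
  by_cases h1 : (2 : 𝓞 K) ∉ v.asIdeal ∧ f.discr ∉ v.asIdeal ^ 2
  · rw [if_pos h1]
    by_cases h2 : f.discr ∈ v.asIdeal
    · have h3 : Once f.discr v := ⟨h2, h1.2⟩
      rw [if_pos h2, if_pos h3]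
      simp
    · rw [if_neg h2, if_neg fun h : Once f.discr v => h2 h.1]
      simp
  · rw [if_neg h1]
    split_ifs <;> simp [hl]

end Pool.Agent.H433.CR
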