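import Pool.Agent.H433.CR.Arc
import Pool.Agent.H433.CR.Fin
import Pool.Agent.H80.CP.D1
import Pool.Agent.H115.CP.P1
import Pool.Agent.H163.CP.C2
import Pool.Agent.H51.CP.C1

/-!
The typical curve `y ^ 2 = φ(x) - t`.
-/

set_option autoImplicit false
set_option linter.unusedSectionVars false
set_option linter.unusedVariables false

open NumberField IsDedekindDomain Finset Polynomial

namespace Pool.Agent.H433.CR

open Pool.Agent.H433.AC (box nv Nm Nm_ne Nm_mul Nm_emb card_box)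
open Pool.Agent.H433.HD (Once once)

/-- `[K : ℚ] ·` the archimedean part of the height -/
noncomputable def ah {K : Type} [Field K] [NumberField K] (g : ℕ) (f : (𝓞 K)[X]) : ℝ :=
  ∑ σ : K →+* ℂ, -(1 / 2) * Real.log (vol g (f.map (σ.comp (algebraMap (𝓞 K) K))))

theorem num (g m d : ℕ) (hd : 1 ≤ d) {b₁ b₂ C₁ C₂ ε x₁ : ℝ} (hb₁ : 0 ≤ b₁) (hb₂ : 0 ≤ b₂)
    (hC₁ : 0 ≤ C₁) (hC₂ : 0 ≤ C₂) (hε : 0 < ε) : ∃ η : ℝ, 0 < η ∧ η < 1 ∧ ∃ x₀ : ℝ, 0 ≤ x₀ ∧
      x₁ ≤ x₀ ∧ ∀ x O N a α : ℝ, x₀ ≤ x → 0 ≤ α → α = m * g / (8 * g + 4) →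
      m * (d * ((1 - η) * x)) - m * ((3 + m) * (η * x) + C₁) ≤ O → O ≤ N →
      N ≤ C₁ + m * (d * (b₂ + x)) →
      a ≤ d * (α * (m + 1) * (b₁ + ((m : ℝ) + 1)⁻¹ * x) + C₂) →
      d * (α * (m + 1) * (b₁ + ((m : ℝ) + 1)⁻¹ * x) - C₂) -
        g * ((m + 1) / 2) * (d * ((m + 1) * m / 2 * (Real.log 2 + (b₁ + ((m : ℝ) + 1)⁻¹ * x))) -
          1 / 2 * N) ≤ a →
      (m - ε) * (d * x) ≤ O ∧ N ≤ (m + ε) * (d * x) ∧ (α - ε) * (d * x) ≤ a ∧
        a ≤ (α + ε) * (d * x) := by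
  have hdR : (1 : ℝ) ≤ d := by exact_mod_cast hd
  have hgR : (0 : ℝ) ≤ g := Nat.cast_nonneg g
  have hmR : (0 : ℝ) ≤ m := Nat.cast_nonneg m
  have hl2 : 0 ≤ Real.log 2 := Real.log_nonneg (by norm_num)
  set A₀ : ℝ := m * g / (8 * g + 4) with hA₀
  have hA₀0 : 0 ≤ A₀ := by positivity
  generalize (g : ℝ) = G at *
  generalize (m : ℝ) = M at *
  generalize (d : ℝ) = D at *
  generalize Real.log 2 = l2 at *
  set Q : ℝ := 2 * (1 + M * (D + 3 + M)) * (1 + G * (M + 1)) with hQ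
  have hQ0 : 0 < Q := by positivity
  set K₀ : ℝ := C₁ + M * C₁ + M * D * b₂ + D * (A₀ * (M + 1) * b₁ + C₂) +
    G * ((M + 1) / 2) * (D * ((M + 1) * M / 2 * (l2 + b₁)) + 1 / 2 * (M * C₁)) with hK₀
  have hK₀0 : 0 ≤ K₀ := by positivity
  refine ⟨min (1 / 2) (ε / Q), lt_min (by norm_num) (div_pos hε hQ0),
    lt_of_le_of_lt (min_le_left _ _) (by norm_num), max x₁ (2 * K₀ / ε),
    le_max_of_le_right (by positivity), le_max_left _ _,
    fun x O N a α hx hα0 hα h1 hON h2 h3 h4 => ?_⟩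
  subst hα
  set η := min (1 / 2) (ε / Q) with hη
  have hη0 : 0 < η := lt_min (by norm_num) (div_pos hε hQ0)
  have hη1 : η * Q ≤ ε := by
    have := min_le_right (1 / 2 : ℝ) (ε / Q)
    rwa [← hη, le_div_iff₀ hQ0] at this
  have hx' : 2 * K₀ / ε ≤ x := (le_max_right _ _).trans hx
  have hx0 : 0 ≤ x := le_trans (by positivity) hx'
  have hKx : K₀ ≤ ε / 2 * x := by
    rw [div_le_iff₀ hε] at hx'
    linarith
  have hDx : x ≤ D * x := le_mul_of_one_le_left hx0 hdR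
  have hεDx : ε * x ≤ ε * (D * x) := mul_le_mul_of_nonneg_left hDx hε.le
  set u := (M + 1)⁻¹ * x with hu
  have hu1 : (M + 1) * u = x := by
    rw [hu, ← mul_assoc, mul_inv_cancel₀ (by positivity), one_mul]
  -- the error terms
  have k1 : 0 ≤ M * (D + 3 + M) := by positivity
  have k2 : 0 ≤ G * (M + 1) := by positivity
  set E₁ : ℝ := M * (D + 3 + M) * (η * x) with hE₁
  have hE₁0 : 0 ≤ E₁ := by positivity
  have hE : E₁ * (1 + G * (M + 1)) ≤ ε / 2 * x := by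
    have e1 : E₁ * (1 + G * (M + 1)) ≤ η * Q / 2 * x := by
      have e2 : η * Q / 2 * x = E₁ * (1 + G * (M + 1)) + η * x * (1 + G * (M + 1)) := by
        rw [hE₁, hQ]
        ring
      rw [e2]
      have : 0 ≤ η * x * (1 + G * (M + 1)) := by positivity
      linarith
    refine e1.trans ?_
    have := mul_le_mul_of_nonneg_right hη1 hx0
    linarith
  have hGE : E₁ ≤ ε / 2 * x := by
    have : 0 ≤ E₁ * (G * (M + 1)) := by positivity
    linarith
  have hGE2 : G * (M + 1) * E₁ ≤ ε / 2 * x := by linarith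
  have p1 : 0 ≤ M * C₁ := by positivity
  have p2 : 0 ≤ M * D * b₂ := by positivity
  have p3 : 0 ≤ D * (A₀ * (M + 1) * b₁ + C₂) := by positivity
  have p4 : 0 ≤ G * ((M + 1) / 2) * (D * ((M + 1) * M / 2 * (l2 + b₁)) + 1 / 2 * (M * C₁)) := by
    positivity
  have p5 : 0 ≤ D * C₂ := by positivity
  have p6 : 0 ≤ D * (A₀ * (M + 1) * b₁) := by positivity
  have hO : M * (D * x) - E₁ - M * C₁ ≤ O := by
    refine le_trans (le_of_eq ?_) h1
    rw [hE₁]
    ring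
  refine ⟨?_, ?_, ?_, ?_⟩
  · linarith
  · have e1 : C₁ + M * (D * (b₂ + x)) = C₁ + M * D * b₂ + M * (D * x) := by ring
    rw [e1] at h2
    linarith
  · refine le_trans ?_ h4
    have e1 : D * (A₀ * (M + 1) * (b₁ + u) - C₂) = A₀ * (D * x) + D * (A₀ * (M + 1) * b₁) -
        D * C₂ := by
      rw [← hu1]
      ring
    have e2 : G * ((M + 1) / 2) * (D * ((M + 1) * M / 2 * (l2 + (b₁ + u))) - 1 / 2 * N) ≤
        G * ((M + 1) / 2) * (D * ((M + 1) * M / 2 * (l2 + b₁)) + 1 / 2 * (M * C₁) +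
          1 / 2 * E₁) := by
      refine mul_le_mul_of_nonneg_left ?_ (by positivity)
      have e3 : D * ((M + 1) * M / 2 * (l2 + (b₁ + u))) =
          D * ((M + 1) * M / 2 * (l2 + b₁)) + 1 / 2 * (M * (D * x)) := by
        rw [← hu1]
        ring
      rw [e3]
      linarith
    have e4 : G * ((M + 1) / 2) * (D * ((M + 1) * M / 2 * (l2 + b₁)) + 1 / 2 * (M * C₁) +
          1 / 2 * E₁) = G * ((M + 1) / 2) * (D * ((M + 1) * M / 2 * (l2 + b₁)) +
          1 / 2 * (M * C₁)) + 1 / 4 * (G * (M + 1) * E₁) := by ring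
    rw [e1]
    rw [e4] at e2
    have e5 : 0 ≤ G * (M + 1) * E₁ := by positivity
    linarith
  · refine h3.trans ?_
    have e1 : D * (A₀ * (M + 1) * (b₁ + u) + C₂) = A₀ * (D * x) + D * (A₀ * (M + 1) * b₁ + C₂) := by
      rw [← hu1]
      ring
    rw [e1]
    linarith

variable {K : Type} [Field K] [NumberField K]

theorem discr_prod {m : ℕ} {A : ℝ} {T : ℕ} {φ : (𝓞 K)[X]} {c : Fin m → 𝓞 K}
    (hc : CQ.Crit m A T φ c) (t : 𝓞 K) : (φ - C t).Monic ∧ (φ - C t).natDegree = m + 1 ∧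
    ∃ k : ℕ, (φ - C t).discr =
      (-1) ^ k * (((m + 1 : ℕ) : 𝓞 K) ^ (m + 1) * ∏ i, (t - φ.eval (c i))) := by
  have hdeg : (φ - C t).natDegree = m + 1 := by
    rw [natDegree_sub_C, hc.deg]
  have hmon : (φ - C t).Monic := by
    refine hc.monic.sub_of_left ?_
    rw [degree_eq_natDegree hc.monic.ne_zero, hc.deg]
    refine lt_of_le_of_lt degree_C_le ?_
    rw [← Nat.cast_zero]
    exact_mod_cast Nat.succ_pos _
  have hder : derivative (φ - C t) = C ((m + 1 : ℕ) : 𝓞 K) * ∏ i, (X - C (c i)) := by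
    rw [derivative_sub, derivative_C, sub_zero, hc.der]
  obtain ⟨e, he⟩ := CP.discr_crit hmon hdeg hder
  refine ⟨hmon, hdeg, e + m, ?_⟩
  have hprod : ∏ i, (φ - C t).eval (c i) = (-1) ^ m * ∏ i, (t - φ.eval (c i)) := by
    have h1 : ∀ i, (φ - C t).eval (c i) = -(t - φ.eval (c i)) := fun i => by
      rw [eval_sub, eval_C]
      ring
    rw [prod_congr rfl fun i _ => h1 i, prod_neg, card_univ, Fintype.card_fin]
  rw [he, hprod, pow_add]
  ring

/-- the size of the discriminant -/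
theorem Nm_up {m : ℕ} {A : ℝ} {T : ℕ} {φ : (𝓞 K)[X]} {c : Fin m → 𝓞 K}
    (hc : CQ.Crit m A T φ c) (t : 𝓞 K) {M : ℝ} (hM : 1 ≤ M) (hD : (φ - C t).discr ≠ 0)
    (h : ∀ i, ∀ σ : K →+* ℂ, ‖σ ((t - φ.eval (c i) : 𝓞 K) : K)‖ ≤ M) :
    Real.log (Nm (φ - C t).discr) ≤ Real.log (Nm (((m + 1 : ℕ) : 𝓞 K) ^ (m + 1))) +
      m * (Module.finrank ℚ K * Real.log M) := by
  obtain ⟨-, -, k, hk⟩ := discr_prod hc t
  have hN0 : ((m + 1 : ℕ) : 𝓞 K) ^ (m + 1) ≠ 0 := by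
    refine pow_ne_zero _ ?_
    rw [Nat.cast_ne_zero]
    omega
  have hP : ∏ i, (t - φ.eval (c i)) ≠ 0 := by
    intro h0
    rw [h0, mul_zero, mul_zero] at hk
    exact hD hk
  have h1 : (0 : ℝ) < Nm (((m + 1 : ℕ) : 𝓞 K) ^ (m + 1)) := by
    exact_mod_cast Nat.pos_of_ne_zero (Nm_ne hN0)
  have h2 : (0 : ℝ) < Nm (∏ i, (t - φ.eval (c i))) := by
    exact_mod_cast Nat.pos_of_ne_zero (Nm_ne hP)
  rw [hk, Nm_mul, Nm_mul, CP.Nm_sign, one_mul, Nat.cast_mul, Real.log_mul h1.ne' h2.ne']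
  refine add_le_add le_rfl ?_
  have h3 : (Nm (∏ i, (t - φ.eval (c i))) : ℝ) ≤ (M ^ m) ^ Module.finrank ℚ K := by
    rw [Nm_emb, ← Embeddings.card K ℂ, ← card_univ, ← prod_const]
    refine prod_le_prod (fun _ _ => norm_nonneg _) fun σ _ => ?_
    have e1 : σ ((∏ i, (t - φ.eval (c i)) : 𝓞 K) : K) =
        ∏ i, σ ((t - φ.eval (c i) : 𝓞 K) : K) := by
      have : σ ((∏ i, (t - φ.eval (c i)) : 𝓞 K) : K) =
          (σ.comp (algebraMap (𝓞 K) K)) (∏ i, (t - φ.eval (c i))) := rfl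
      rw [this, map_prod]
      rfl
    rw [e1, norm_prod]
    calc ∏ i, ‖σ ((t - φ.eval (c i) : 𝓞 K) : K)‖ ≤ ∏ _i : Fin m, M :=
          prod_le_prod (fun _ _ => norm_nonneg _) fun i _ => h i σ
      _ = M ^ m := by rw [prod_const, card_univ, Fintype.card_fin]
  have h4 := Real.log_le_log h2 h3
  rw [Real.log_pow, Real.log_pow] at h4
  linarith

open Classical in
/-- the typical curve -/
theorem typ {g m : ℕ} (hm : m = 2 * g ∨ m = 2 * g + 1) (K : Type) [Field K] [NumberField K]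
    {A : ℝ} (hA : 1 ≤ A) {ε : ℝ} (hε : 0 < ε) (x₁ : ℝ) : ∃ C δ : ℝ, 0 < δ ∧ ∀ T : ℕ, 1 ≤ T →
      ∀ (φ : (𝓞 K)[X]) (c : Fin m → 𝓞 K), CQ.Crit m A T φ c → ∃ S : Finset (𝓞 K),
        (S.card : ℝ) ≤ C * (T : ℝ) ^ (-δ) * (box K T).card ∧ ∀ t ∈ box K T, t ∉ S →
          x₁ ≤ Real.log T ∧ (φ - Polynomial.C t).discr ≠ 0 ∧
          (m - ε) * (Module.finrank ℚ K * Real.log T) ≤ once (φ - Polynomial.C t).discr ∧
          Real.log (Nm (φ - Polynomial.C t).discr) ≤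
            (m + ε) * (Module.finrank ℚ K * Real.log T) ∧
          (m * g / (8 * g + 4) - ε) * (Module.finrank ℚ K * Real.log T) ≤
            ah g (φ - Polynomial.C t) ∧
          ah g (φ - Polynomial.C t) ≤
            (m * g / (8 * g + 4) + ε) * (Module.finrank ℚ K * Real.log T) := by
  obtain ⟨B, C₀, hB, hC₀, hbd⟩ := exists_boundC H115.CP.p1 K m A hA
  obtain ⟨C₂, hC₂, harch⟩ := arch_sum hm
  set d := Module.finrank ℚ K with hd
  have hd1 : 1 ≤ d := Module.finrank_pos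
  set C₁ : ℝ := Real.log (Nm (((m + 1 : ℕ) : 𝓞 K) ^ (m + 1))) with hC₁
  have hN0 : ((m + 1 : ℕ) : 𝓞 K) ^ (m + 1) ≠ 0 := by
    refine pow_ne_zero _ ?_
    rw [Nat.cast_ne_zero]
    omega
  have hC₁0 : 0 ≤ C₁ := by
    refine Real.log_nonneg ?_
    exact_mod_cast Nat.one_le_iff_ne_zero.2 (Nm_ne hN0)
  have hBC : 1 ≤ B + C₀ := by linarith
  obtain ⟨η, hη0, hη1, ℓ₀, hℓ₀, hx₁, hnum⟩ := num g m d hd1 (x₁ := x₁) (Real.log_nonneg hB)
    (Real.log_nonneg hBC) hC₁0 hC₂ hε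
  obtain ⟨C₃, hC₃, hbox⟩ := AC.box_size K
  obtain ⟨B₁, hB₁, hcnt⟩ := H51.CP.c1 H80.CP.d1 H163.CP.c2 K m (B + C₀ + C₃) (η / 2)
    (by linarith) (by linarith)
  obtain ⟨T₀, hT₀⟩ := exists_nat_ge (max 2 (Real.exp ℓ₀))
  have hT₀2 : (2 : ℝ) ≤ T₀ := (le_max_left _ _).trans hT₀
  have hT₀0 : (0 : ℝ) < T₀ := by linarith
  refine ⟨2 * B₁ + (T₀ : ℝ) ^ (η / 2), η / 2, by linarith, fun T hT φ c hc => ?_⟩
  have hT0 : (0 : ℝ) < T := by exact_mod_cast hT
  have hT1 : (1 : ℝ) ≤ T := by exact_mod_cast hT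
  have hcard0 : (0 : ℝ) ≤ (box K T).card := Nat.cast_nonneg _
  have hTδ : 0 < (T : ℝ) ^ (-(η / 2)) := Real.rpow_pos_of_pos hT0 _
  rcases lt_or_ge T T₀ with hlt | hge
  · refine ⟨box K T, ?_, fun t ht hn => absurd ht hn⟩
    have h1 : (1 : ℝ) ≤ (T₀ : ℝ) ^ (η / 2) * (T : ℝ) ^ (-(η / 2)) := by
      rw [Real.rpow_neg hT0.le, ← div_eq_mul_inv, one_le_div (Real.rpow_pos_of_pos hT0 _)]
      exact Real.rpow_le_rpow hT0.le (by exact_mod_cast hlt.le) (by linarith)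
    have h2 : 0 ≤ 2 * B₁ * (T : ℝ) ^ (-(η / 2)) := by positivity
    have h3 : (1 : ℝ) ≤ (2 * B₁ + (T₀ : ℝ) ^ (η / 2)) * (T : ℝ) ^ (-(η / 2)) := by
      rw [add_mul]
      linarith
    exact le_mul_of_one_le_left hcard0 h3
  · have hTT₀ : (T₀ : ℝ) ≤ T := by exact_mod_cast hge
    have hℓT : ℓ₀ ≤ Real.log T := by
      rw [Real.le_log_iff_exp_le hT0]
      exact ((le_max_right _ _).trans hT₀).trans hTT₀
    have hℓ : 0 ≤ Real.log T := Real.log_nonneg hT1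
    set Y : ℝ := (T : ℝ) ^ η with hY
    set R : ℝ := (T : ℝ) ^ (1 - η) with hR
    have hY1 : 1 ≤ Y := Real.one_le_rpow hT1 hη0.le
    have hR1 : 1 ≤ R := Real.one_le_rpow hT1 (by linarith)
    have h0box : (0 : 𝓞 K) ∈ box K T := by
      rw [AC.mem_box]
      intro i
      simp
    have hv : ∀ i, ∀ σ : K →+* ℂ, ‖σ ((φ.eval (c i) : 𝓞 K) : K)‖ ≤ (B + C₀ + C₃) * T := by
      intro i σ
      have h1 := (hbd T hT φ c hc 0 h0box).1 i σ
      rw [zero_sub] at h1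
      have e1 : σ ((-φ.eval (c i) : 𝓞 K) : K) = -σ ((φ.eval (c i) : 𝓞 K) : K) := by
        rw [← map_neg]
        rfl
      rw [e1, norm_neg] at h1
      refine h1.trans ?_
      have : 0 ≤ C₃ * T := by positivity
      linarith
    refine ⟨(box K T).filter fun t => CP.Bad (fun i => φ.eval (c i)) Y R t, ?_,
      fun t ht hn => ?_⟩
    · refine (hcnt T hT _ hc.inj hv Y R hY1 hR1 _ fun t ht => mem_filter.1 ht).trans ?_
      have h1 : R / T + (T : ℝ) ^ (η / 2) / Y ≤ 2 * (T : ℝ) ^ (-(η / 2)) := by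
        have e1 : R / T = (T : ℝ) ^ (-η) := by
          rw [hR, Real.rpow_sub hT0, Real.rpow_one, Real.rpow_neg hT0.le]
          field_simp
        have e2 : (T : ℝ) ^ (η / 2) / Y = (T : ℝ) ^ (-(η / 2)) := by
          rw [hY, ← Real.rpow_sub hT0]
          congr 1
          ring
        have e3 : (T : ℝ) ^ (-η) ≤ (T : ℝ) ^ (-(η / 2)) :=
          Real.rpow_le_rpow_of_exponent_le hT1 (by linarith)
        rw [e1, e2]
        linarith
      have h2 : (T : ℝ) ^ Module.finrank ℚ K ≤ (box K T).card := by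
        rw [card_box]
        push_cast
        exact pow_le_pow_left₀ hT0.le (by linarith) _
      calc B₁ * (T : ℝ) ^ Module.finrank ℚ K * (R / T + (T : ℝ) ^ (η / 2) / Y)
          ≤ B₁ * (T : ℝ) ^ Module.finrank ℚ K * (2 * (T : ℝ) ^ (-(η / 2))) :=
            mul_le_mul_of_nonneg_left h1 (by positivity)
        _ = 2 * B₁ * (T : ℝ) ^ (-(η / 2)) * (T : ℝ) ^ Module.finrank ℚ K := by ring
        _ ≤ 2 * B₁ * (T : ℝ) ^ (-(η / 2)) * (box K T).card :=
            mul_le_mul_of_nonneg_left h2 (by positivity)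
        _ ≤ (2 * B₁ + (T₀ : ℝ) ^ (η / 2)) * (T : ℝ) ^ (-(η / 2)) * (box K T).card := by
            refine mul_le_mul_of_nonneg_right (mul_le_mul_of_nonneg_right ?_ hTδ.le) hcard0
            have : 0 ≤ (T₀ : ℝ) ^ (η / 2) := by positivity
            linarith
    · have hb : ¬ CP.Bad (fun i => φ.eval (c i)) Y R t := fun h => hn (mem_filter.2 ⟨ht, h⟩)
      obtain ⟨hD, hO⟩ := CQ.once_low hc hY1 hR1 hb
      obtain ⟨hmon, hdeg, -⟩ := discr_prod hc t
      obtain ⟨hsize, hroot⟩ := hbd T hT φ c hc t ht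
      have hlR : Real.log R = (1 - η) * Real.log T := Real.log_rpow hT0 _
      have hlY : Real.log Y = η * Real.log T := Real.log_rpow hT0 _
      rw [hlR, hlY] at hO
      have hM1 : 1 ≤ (B + C₀) * T := by nlinarith
      have hNup := Nm_up hc t hM1 hD hsize
      rw [Real.log_mul (by positivity) hT0.ne'] at hNup
      set r : ℝ := B * (T : ℝ) ^ ((m + 1 : ℝ)⁻¹) with hr
      have hr0 : 0 < r := by positivity
      have hlr : Real.log r = Real.log B + (m + 1 : ℝ)⁻¹ * Real.log T := by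
        rw [hr, Real.log_mul (by positivity) (by positivity), Real.log_rpow hT0]
      obtain ⟨ha1, ha2⟩ := harch K _ r hr0 hmon hdeg hD hroot
      rw [Real.log_mul (by norm_num) hr0.ne', hlr] at ha2
      rw [hlr] at ha1
      have hON : once (φ - Polynomial.C t).discr ≤
          Real.log (Nm (φ - Polynomial.C t).discr) := by
        obtain ⟨W, hW, -⟩ := exists_W hD (one_ne_zero : (1 : K) ≠ 0)
        have h1 := sm_sq hD hW
        have h2 : 0 ≤ sm W (fun v => (φ - Polynomial.C t).discr ∈ v.asIdeal ^ 2) := by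
          unfold sm
          refine sum_nonneg fun v _ => ?_
          have := (AC.log_nv_pos v).le
          split_ifs
          · exact this
          · exact le_rfl
        linarith
      obtain ⟨h1, h2, h3, h4⟩ := hnum (Real.log T) (once (φ - Polynomial.C t).discr)
        (Real.log (Nm (φ - Polynomial.C t).discr)) (ah g (φ - Polynomial.C t)) _ hℓT
        (by positivity) rfl hO hON hNup ha1 ha2
      exact ⟨hx₁.trans hℓT, hD, h1, h2, h3, h4⟩

end Pool.Agent.H433.CR
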