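import Pool.Agent.H433.CR.Def2
import Pool.Agent.H433.CR.Typ

/-!
The main theorems: the inequalities of Frey for almost all the curves `e y ^ 2 = φ(x) - t`.
-/

set_option autoImplicit false
set_option linter.unusedSectionVars false
set_option linter.unusedVariables false

open NumberField IsDedekindDomain Finset Polynomial

namespace Pool.Agent.H433.CR

open Pool.Agent.H433.AC (box nv od Nm Nm_ne od_one)
open Pool.Agent.H433.HD (Once once)

variable {K : Type} [Field K] [NumberField K]

open Classical in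
theorem height_one (g : ℕ) (f : (𝓞 K)[X]) : height g f 1 = ah g f := by
  unfold height ah
  have h0 : (∑ᶠ v : HeightOneSpectrum (𝓞 K),
      if (2 : 𝓞 K) ∉ v.asIdeal ∧ Odd (od v (1 : K)) then Real.log (nv v) else 0) = 0 := by
    refine finsum_eq_zero_of_forall_eq_zero fun v => ?_
    rw [od_one, if_neg fun h => absurd h.2 (by decide)]
  rw [h0]
  ring

open Classical in
/-- the exact slope for the stable height -/
theorem sharp (g m : ℕ) (hg : 1 ≤ g) (hm : m = 2 * g ∨ m = 2 * g + 1) (K : Type) [Field K]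
    [NumberField K] {A : ℝ} (hA : 1 ≤ A) {κ κ' : ℝ} (hκ : (g : ℝ) / (8 * g + 4) < κ)
    (hκ' : κ' < (g : ℝ) / (8 * g + 4)) {B : ℝ} (hB : 0 ≤ B) (c₀ : ℝ) :
    ∃ C δ : ℝ, 0 < δ ∧ ∀ T : ℕ, 1 ≤ T → ∀ (φ : (𝓞 K)[X]) (c : Fin m → 𝓞 K), CQ.Crit m A T φ c →
      (((box K T).filter fun t => ¬ Sharp g κ κ' B c₀ (φ - Polynomial.C t)).card : ℝ) ≤
        C * (T : ℝ) ^ (-δ) * (box K T).card := by
  have hgR : (1 : ℝ) ≤ g := by exact_mod_cast hg
  have hmR : (1 : ℝ) ≤ m := by
    have : 1 ≤ m := by omega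
    exact_mod_cast this
  set s : ℝ := (g : ℝ) / (8 * g + 4) with hs
  have hs0 : 0 < s := by positivity
  have hκ0 : 0 < κ := hs0.trans hκ
  have hl2 : 0 ≤ Real.log 2 := Real.log_nonneg (by norm_num)
  set k : ℝ := max κ' 0 with hk
  have hk0 : 0 ≤ k := le_max_right _ _
  have hks : k < s := max_lt hκ' hs0
  set d : ℝ := (Module.finrank ℚ K : ℝ) with hd
  have hd1 : 1 ≤ d := by
    have : 1 ≤ Module.finrank ℚ K := Module.finrank_pos
    rw [hd]
    exact_mod_cast this
  -- the choice of the constants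
  set ε₁ : ℝ := (κ - s) / (2 * (1 + κ)) with hε₁
  set ε₂ : ℝ := (s - k) / (2 * ((k + 1) * (1 + 2 * B))) with hε₂
  have hε₁0 : 0 < ε₁ := div_pos (by linarith) (by positivity)
  have hε₂0 : 0 < ε₂ := div_pos (by linarith) (by positivity)
  set ε := min ε₁ ε₂ with hε
  have hε0 : 0 < ε := lt_min hε₁0 hε₂0
  have he1 : ε * (1 + κ) ≤ (κ - s) / 2 := by
    have h1 : ε ≤ (κ - s) / (2 * (1 + κ)) := min_le_left _ _
    rw [le_div_iff₀ (by positivity)] at h1
    linarith
  have he2 : ε * ((k + 1) * (1 + 2 * B)) ≤ (s - k) / 2 := by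
    have h1 : ε ≤ (s - k) / (2 * ((k + 1) * (1 + 2 * B))) := min_le_right _ _
    rw [le_div_iff₀ (by positivity)] at h1
    linarith
  set x₁ : ℝ := max (2 * (|c₀| + κ * d * Real.log 2) / (κ - s)) (2 * |c₀| / (s - k)) with hx₁
  obtain ⟨C, δ, hδ, h⟩ := typ (g := g) hm K hA hε0 x₁
  refine ⟨C, δ, hδ, fun T hT φ c hc => ?_⟩
  obtain ⟨S, hS, h1⟩ := h T hT φ c hc
  refine le_trans ?_ hS
  norm_cast
  refine card_le_card fun t ht => ?_
  rw [mem_filter] at ht
  by_contra hn
  obtain ⟨hx, hD, hO, hN, ha1, ha2⟩ := h1 t ht.1 hn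
  apply ht.2
  have hT0 : 0 ≤ Real.log T := Real.log_natCast_nonneg T
  set X := d * Real.log T with hX
  have hXx : Real.log T ≤ X := le_mul_of_one_le_left hT0 hd1
  have hX0 : 0 ≤ X := hT0.trans hXx
  have hc1 : |c₀| + κ * d * Real.log 2 ≤ (κ - s) / 2 * X := by
    have h2 := (le_max_left _ _).trans (hx.trans hXx)
    rw [div_le_iff₀ (by linarith)] at h2
    linarith
  have hc2 : |c₀| ≤ (s - k) / 2 * X := by
    have h2 := (le_max_right _ _).trans (hx.trans hXx)
    rw [div_le_iff₀ (by linarith)] at h2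
    linarith
  have hcc := le_abs_self c₀
  have hms : (m : ℝ) * g / (8 * g + 4) = m * s := by
    rw [hs]
    ring
  rw [hms] at ha1 ha2
  have hm1 : (κ - s) * X ≤ (κ - s) * X * m := le_mul_of_one_le_right
    (mul_nonneg (by linarith) hX0) hmR
  have hm2 : (s - k) * X ≤ (s - k) * X * m := le_mul_of_one_le_right
    (mul_nonneg (by linarith) hX0) hmR
  refine ⟨hD, fun e he => ?_, ?_⟩
  · have h2 := stab_le hg hD he
    have h3 := mul_le_mul_of_nonneg_left h2 hκ0.le
    rw [height_one]
    have h4 := mul_le_mul_of_nonneg_right he1 hX0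
    have h5 := mul_le_mul_of_nonneg_left hO hκ0.le
    have e1 : κ * (once (φ - Polynomial.C t).discr - Module.finrank ℚ K * Real.log 2) =
        κ * once (φ - Polynomial.C t).discr - κ * d * Real.log 2 := by
      rw [hd]
      ring
    have e2 : κ * ((m - ε) * X) = κ * m * X - κ * ε * X := by ring
    have e3 : ε * (1 + κ) * X = ε * X + κ * ε * X := by ring
    have e4 : (m * s + ε) * X = m * s * X + ε * X := by ring
    have e5 : (κ - s) * X * m = κ * m * X - m * s * X := by ring
    rw [e1] at h3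
    rw [e2] at h5
    rw [e3] at h4
    rw [e4] at ha2
    rw [e5] at hm1
    linarith
  · rw [height_one]
    have hexc0 : 0 ≤ exc (φ - Polynomial.C t) := by
      obtain ⟨W, hW, -⟩ := exists_W hD (one_ne_zero : (1 : K) ≠ 0)
      have h1 := sm_sq hD hW
      have h2 : 0 ≤ sm W (fun v => (φ - Polynomial.C t).discr ∈ v.asIdeal ^ 2) := by
        unfold sm
        refine sum_nonneg fun v _ => ?_
        have := (AC.log_nv_pos v).le
        split_ifs
        · exact this
        · exact le_rfl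
      unfold exc
      unfold Nm at h1
      linarith
    have hexc : exc (φ - Polynomial.C t) ≤ 2 * ε * X := by
      unfold exc
      unfold Nm at hN
      linarith
    have hco := cond_one_le (g := g) hD
    have hco' : Real.log (cond g (φ - Polynomial.C t) 1) ≤ (m + ε) * X := by
      have : once (φ - Polynomial.C t).discr ≤ (m + ε) * X := by
        unfold exc at hexc0
        unfold Nm at hN
        linarith
      linarith
    have hco0 : 0 ≤ Real.log (cond g (φ - Polynomial.C t) (1 : K)) := Real.log_natCast_nonneg _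
    have hBe : B * exc (φ - Polynomial.C t) ≤ B * (2 * ε * X) := mul_le_mul_of_nonneg_left hexc hB
    have hBe0 : 0 ≤ B * exc (φ - Polynomial.C t) := mul_nonneg hB hexc0
    have h2 : κ' * (Real.log (cond g (φ - Polynomial.C t) (1 : K)) +
        B * exc (φ - Polynomial.C t)) ≤ k * ((m + ε) * X + B * (2 * ε * X)) := by
      have hkκ : κ' ≤ k := le_max_left _ _
      refine (mul_le_mul_of_nonneg_right hkκ (add_nonneg hco0 hBe0)).trans ?_
      exact mul_le_mul_of_nonneg_left (by linarith) hk0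
    have h4 := mul_le_mul_of_nonneg_right he2 hX0
    have e1 : k * ((m + ε) * X + B * (2 * ε * X)) + ε * X + B * (2 * ε * X) =
        k * m * X + ε * ((k + 1) * (1 + 2 * B)) * X := by ring
    have e2 : (m * s - ε) * X = m * s * X - ε * X := by ring
    have e5 : (s - k) * X * m = m * s * X - k * m * X := by ring
    rw [e2] at ha1
    rw [e5] at hm2
    linarith

open Classical in
/-- the relative height and all the twists -/
theorem rel (g m : ℕ) (hg : 1 ≤ g) (hm : m = 2 * g ∨ m = 2 * g + 1) (K : Type) [Field K]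
    [NumberField K] {A : ℝ} (hA : 1 ≤ A) {κ : ℝ} (hκ : (4 * (g : ℝ) + 3) / (16 * g + 8) < κ)
    (c₀ : ℝ) :
    ∃ C δ : ℝ, 0 < δ ∧ ∀ T : ℕ, 1 ≤ T → ∀ (φ : (𝓞 K)[X]) (c : Fin m → 𝓞 K), CQ.Crit m A T φ c →
      (((box K T).filter fun t => ¬ FreyAll g κ c₀ (φ - Polynomial.C t)).card : ℝ) ≤
        C * (T : ℝ) ^ (-δ) * (box K T).card := by
  have hgR : (1 : ℝ) ≤ g := by exact_mod_cast hg
  have hmR : (1 : ℝ) ≤ m := by
    have : 1 ≤ m := by omega
    exact_mod_cast this
  set s : ℝ := (g : ℝ) / (8 * g + 4) with hs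
  have hs0 : 0 < s := by positivity
  have hs8 : s < 1 / 8 := by
    rw [hs, div_lt_div_iff₀ (by positivity) (by norm_num)]
    linarith
  have hκ4 : 1 / 4 ≤ κ := by
    refine le_trans ?_ hκ.le
    rw [div_le_div_iff₀ (by norm_num) (by positivity)]
    linarith
  have hκs : s < 2 * g * κ - g / 2 := by
    have h1 : (4 * (g : ℝ) + 3) / (16 * g + 8) = s / (2 * g) + 1 / 4 := by
      rw [hs]
      have : (g : ℝ) ≠ 0 := by positivity
      have : (8 * g + 4 : ℝ) ≠ 0 := by positivity
      have : (16 * g + 8 : ℝ) ≠ 0 := by positivity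
      field_simp
      ring
    rw [h1] at hκ
    have h2 : s / (2 * g) < κ - 1 / 4 := by linarith
    rw [div_lt_iff₀ (by positivity)] at h2
    linarith
  set μ : ℝ := min κ (2 * g * κ - g / 2) with hμ
  have hμs : s < μ := lt_min (by linarith) hκs
  have hμ0 : 0 < μ := hs0.trans hμs
  have hl2 : 0 ≤ Real.log 2 := Real.log_nonneg (by norm_num)
  set d : ℝ := (Module.finrank ℚ K : ℝ) with hd
  have hd1 : 1 ≤ d := by
    have : 1 ≤ Module.finrank ℚ K := Module.finrank_pos
    rw [hd]
    exact_mod_cast this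
  set ε : ℝ := (μ - s) / (2 * (1 + μ + g)) with hε
  have hε0 : 0 < ε := div_pos (by linarith) (by positivity)
  have he1 : ε * (1 + μ + g) = (μ - s) / 2 := by
    have : (1 + μ + g) ≠ 0 := by positivity
    rw [hε]
    field_simp
  set x₁ : ℝ := 2 * (|c₀| + μ * d * Real.log 2) / (μ - s) with hx₁
  obtain ⟨C, δ, hδ, h⟩ := typ (g := g) hm K hA hε0 x₁
  refine ⟨C, δ, hδ, fun T hT φ c hc => ?_⟩
  obtain ⟨S, hS, h1⟩ := h T hT φ c hc
  refine le_trans ?_ hS
  norm_cast
  refine card_le_card fun t ht => ?_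
  rw [mem_filter] at ht
  by_contra hn
  obtain ⟨hx, hD, hO, hN, ha1, ha2⟩ := h1 t ht.1 hn
  apply ht.2
  have hT0 : 0 ≤ Real.log T := Real.log_natCast_nonneg T
  set X := d * Real.log T with hX
  have hXx : Real.log T ≤ X := le_mul_of_one_le_left hT0 hd1
  have hX0 : 0 ≤ X := hT0.trans hXx
  have hc1 : |c₀| + μ * d * Real.log 2 ≤ (μ - s) / 2 * X := by
    have h2 := hx.trans hXx
    rw [hx₁, div_le_iff₀ (by linarith)] at h2
    linarith
  have hcc := le_abs_self c₀
  have hms : (m : ℝ) * g / (8 * g + 4) = m * s := by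
    rw [hs]
    ring
  rw [hms] at ha2
  have hm1 : (μ - s) * X ≤ (μ - s) * X * m := le_mul_of_one_le_right
    (mul_nonneg (by linarith) hX0) hmR
  refine ⟨hD, fun e he => ?_⟩
  have h2 := rel_le hg hD he hκ4 hμ0.le (min_le_left _ _) (min_le_right _ _)
    (X := ah g (φ - Polynomial.C t) + c₀) ?_
  · rw [height_one] at h2
    linarith
  · have h3 : μ * ((m - ε) * X - d * Real.log 2) ≤
        μ * (once (φ - Polynomial.C t).discr - d * Real.log 2) :=
      mul_le_mul_of_nonneg_left (by linarith) hμ0.le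
    have h4 : g / 2 * (Real.log (Nm (φ - Polynomial.C t).discr) -
        once (φ - Polynomial.C t).discr) ≤ g / 2 * (2 * ε * X) :=
      mul_le_mul_of_nonneg_left (by linarith) (by positivity)
    have h5 : ε * (1 + μ + g) * X = (μ - s) / 2 * X := by rw [he1]
    have e1 : μ * ((m - ε) * X - d * Real.log 2) - g / 2 * (2 * ε * X) =
        μ * m * X - ε * (μ + g) * X - μ * d * Real.log 2 := by ring
    have e2 : (m * s + ε) * X = m * s * X + ε * X := by ring
    have e3 : ε * (1 + μ + g) * X = ε * X + ε * (μ + g) * X := by ring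
    have e4 : (μ - s) * X * m = μ * m * X - m * s * X := by ring
    rw [e4] at hm1
    rw [e3] at h5
    rw [e2] at ha2
    linarith

end Pool.Agent.H433.CR
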