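import Pool.Agent.H433.CR.Typ
import Pool.Agent.H433.AC.Rel1
import Pool.Graph.R_seed8.W318.GlobalSzp

/-!
The minimal discriminants and the conductors of the curves `e y ^ 2 = f(x)`.
-/

set_option autoImplicit false
set_option linter.unusedSectionVars false
set_option linter.unusedVariables false

open NumberField IsDedekindDomain Finset Polynomial WithZero

namespace Pool.Agent.H433.CR

open Pool.Agent.H433.AC (box nv od Nm Nm_ne Nm_emb Nm_prod mp le_mp mem_iff_mp finite_mem finite_od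
  log_nv_pos one_lt_nv od_one od_mul od_pow od_int)
open Pool.Agent.H433.HD (Once once)
open Pool.Agent.W318 (IsHyp minExp discNorm discNorm_eq minExp_le exists_two_exp Eqv act_one discN
  discN_C_mul discr_map_of_injective)

variable {K : Type} [Field K] [NumberField K]

/-- the right hand side of `y ^ 2 = e f(x)`, which is the twist of `y ^ 2 = f(x)` by `e` -/
noncomputable def curve (f : (𝓞 K)[X]) (e : K) : K[X] := C e * f.map (algebraMap (𝓞 K) K)

variable {g : ℕ} {f : (𝓞 K)[X]} {e : K}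

theorem discr_map' (f : (𝓞 K)[X]) :
    (f.map (algebraMap (𝓞 K) K)).discr = ((f.discr : 𝓞 K) : K) :=
  discr_map_of_injective (algebraMap (𝓞 K) K) (FaithfulSMul.algebraMap_injective (𝓞 K) K) f

theorem isHyp_of (hd : f.natDegree = 2 * g + 1 ∨ f.natDegree = 2 * g + 2) (hP : f.Monic)
    (hD : f.discr ≠ 0) (he : e ≠ 0) : IsHyp g (curve f e) := by
  set F := f.map (algebraMap (𝓞 K) K) with hF
  have h1 : F.natDegree = f.natDegree := hP.natDegree_map _
  have h2 : F.Monic := hP.map _
  have h3 : F.discr ≠ 0 := by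
    rw [hF, discr_map']
    exact fun h => hD (RingOfIntegers.coe_eq_zero_iff.1 h)
  have h4 := resultant_deriv (f := F) (natDegree_pos_iff_degree_pos.mp (by omega))
  have h5 : (derivative F).natDegree = F.natDegree - 1 := by
    have := degree_derivative (p := F) (by omega)
    exact natDegree_eq_of_degree_eq_some this
  have h6 : F.Separable := by
    by_contra hcon
    have h7 : resultant F (derivative F) F.natDegree (F.natDegree - 1) = 0 := by
      rw [← h5]
      rw [resultant_eq_zero_iff]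
      exact ⟨Or.inl h2.ne_zero, hcon⟩
    rw [h4] at h7
    have h8 : (-1 : K) ^ (F.natDegree * (F.natDegree - 1) / 2) * F.leadingCoeff ≠ 0 := by
      rw [h2.leadingCoeff, mul_one]
      exact pow_ne_zero _ (by norm_num)
    exact (mul_ne_zero h8 h3) h7
  refine ⟨?_, ?_⟩
  · have h7 := h6.squarefree
    have h8 : (C e * F).Separable := by
      have := h6.unit_mul (isUnit_C.2 he.isUnit)
      exact this
    exact h8.squarefree
  · unfold curve
    rw [natDegree_C_mul he, ← hF, h1]
    exact hd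

/-- the exponent of the minimal discriminant -/
theorem minExp_up (hd : f.natDegree = 2 * g + 1 ∨ f.natDegree = 2 * g + 2) (hP : f.Monic)
    (hD : f.discr ≠ 0) (he : e ≠ 0) (v : HeightOneSpectrum (𝓞 K)) :
    (minExp g (curve f e) v : ℤ) ≤ 4 * g * (mp v (2 : 𝓞 K) : ℕ) + (mp v f.discr : ℕ) +
      (4 * g + 2) * (od v e % 2) := by
  have hF := isHyp_of hd hP hD he
  obtain ⟨t, ht⟩ := exists_two_exp (K := K) v
  have h20 : (2 : 𝓞 K) ≠ 0 := by norm_num
  have ht' : (t : ℤ) = mp v (2 : 𝓞 K) := by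
    rw [← od_int v h20]
    have : (((2 : 𝓞 K)) : K) = 2 := by
      have : (((2 : 𝓞 K)) : K) = algebraMap (𝓞 K) K 2 := rfl
      rw [this, map_ofNat]
    unfold od
    rw [this, ht, log_exp]
    ring
  obtain ⟨π, hπ⟩ := v.valuation_exists_uniformizer K
  have hπ0 : π ≠ 0 := by
    intro h
    rw [h, map_zero] at hπ
    exact absurd hπ.symm (by exact exp_ne_zero)
  set k : ℤ := od v e / 2 with hk
  set l : K := π ^ (-k) with hl
  have hl0 : l ≠ 0 := zpow_ne_zero _ hπ0
  have hle0 : l ^ 2 * e ≠ 0 := mul_ne_zero (pow_ne_zero _ hl0) he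
  have hodl : od v l = -k := by
    unfold od
    rw [hl, map_zpow₀, hπ, log_zpow, log_exp]
    simp
  have hod : od v (l ^ 2 * e) = od v e % 2 := by
    rw [od_mul v (pow_ne_zero _ hl0) he, od_pow, hodl, hk]
    have := Int.emod_add_mul_ediv (od v e) 2
    push_cast
    linarith
  have hval : v.valuation K (l ^ 2 * e) ≤ 1 := by
    have h1 : v.valuation K (l ^ 2 * e) = exp (-od v (l ^ 2 * e)) := by
      unfold od
      rw [neg_neg, exp_log]
      exact (Valuation.ne_zero_iff _).2 hle0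
    rw [h1, hod, ← exp_zero, exp_le_exp]
    have := Int.emod_nonneg (od v e) (by norm_num : (2 : ℤ) ≠ 0)
    linarith
  set F' : K[X] := C (l ^ 2) * curve f e with hF'
  have hdeg : (curve f e).natDegree ≤ g + 1 + (g + 1) := by
    have := hF.2
    omega
  have heqv : Eqv (g + 1) (curve f e) F' :=
    ⟨1, 0, 0, 1, l, by simp, hl0, by rw [act_one _ _ hdeg]⟩
  have hF'' : F' = C (l ^ 2 * e) * f.map (algebraMap (𝓞 K) K) := by
    rw [hF']
    unfold curve
    rw [← mul_assoc, ← C_mul]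
  have hint : ∀ i, v.valuation K (F'.coeff i) ≤ 1 := by
    intro i
    rw [hF'', coeff_C_mul, map_mul, coeff_map]
    exact mul_le_one' hval (v.valuation_le_one _)
  obtain ⟨j, hj, -, hle⟩ := minExp_le hF v heqv hint ht
  have hmon : (f.map (algebraMap (𝓞 K) K)).Monic := hP.map _
  have hnd : (f.map (algebraMap (𝓞 K) K)).natDegree = f.natDegree := hP.natDegree_map _
  have hdisc : discN (g + 1 + (g + 1)) F' =
      (l ^ 2 * e) ^ (2 * (g + 1 + (g + 1) - 1)) * ((f.discr : 𝓞 K) : K) := by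
    rw [hF'', discN_C_mul (by omega) hle0 (by rw [hnd]; omega)]
    congr 1
    unfold discN
    rw [hmon.leadingCoeff, one_pow, one_mul, ite_self, discr_map']
  have hDK : ((f.discr : 𝓞 K) : K) ≠ 0 := fun h => hD (RingOfIntegers.coe_eq_zero_iff.1 h)
  have hj' : (j : ℤ) = (4 * g + 2) * (od v e % 2) + (mp v f.discr : ℕ) := by
    have h1 : od v (discN (g + 1 + (g + 1)) F') = j := by
      unfold od
      rw [hj, log_exp]
      ring
    rw [← h1, hdisc, od_mul v (pow_ne_zero _ hle0) hDK, od_pow, hod, od_int v hD]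
    have : ((2 * (g + 1 + (g + 1) - 1) : ℕ) : ℤ) = 4 * g + 2 := by
      have : 2 * (g + 1 + (g + 1) - 1) = 4 * g + 2 := by omega
      rw [this]
      push_cast
      ring
    rw [this]
  have h9 : (minExp g (curve f e) v : ℤ) ≤ 4 * g * t + j := by exact_mod_cast hle
  rw [ht', hj'] at h9
  linarith

open Classical in
/-- the norm of the minimal discriminant -/
theorem log_disc_up (hd : f.natDegree = 2 * g + 1 ∨ f.natDegree = 2 * g + 2) (hP : f.Monic)
    (hD : f.discr ≠ 0) (he : e ≠ 0) :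
    Real.log (discNorm g (curve f e)) ≤ Real.log (Nm f.discr) +
      (4 * g + 2) * (∑ᶠ v : HeightOneSpectrum (𝓞 K),
        if (2 : 𝓞 K) ∉ v.asIdeal ∧ Odd (od v e) then Real.log (nv v) else 0) +
      (8 * g + 2) * (Module.finrank ℚ K * Real.log 2) := by
  classical
  have h20 : (2 : 𝓞 K) ≠ 0 := by norm_num
  obtain ⟨W₀, hW₀, hW₀'⟩ := exists_W hD he
  set W := W₀ ∪ (finite_mem h20).toFinset with hWdef
  have hW : ∀ v : HeightOneSpectrum (𝓞 K), f.discr ∈ v.asIdeal → v ∈ W := fun v hv =>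
    mem_union_left _ (hW₀ v hv)
  have hW' : ∀ v, od v e ≠ 0 → v ∈ W := fun v hv => mem_union_left _ (hW₀' v hv)
  have hW2 : ∀ v : HeightOneSpectrum (𝓞 K), (2 : 𝓞 K) ∈ v.asIdeal → v ∈ W := fun v hv => by
    rw [hWdef, mem_union, Set.Finite.mem_toFinset]
    exact Or.inr hv
  have hup := minExp_up (g := g) hd hP hD he
  have hsupp : ∀ v, minExp g (curve f e) v ≠ 0 → v ∈ W := by
    intro v hv
    by_contra hcon
    have h1 : mp v (2 : 𝓞 K) = 0 := by
      have h0 : (2 : 𝓞 K) ∉ v.asIdeal := fun h => hcon (hW2 v h)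
      rw [mem_iff_mp h20] at h0
      omega
    have h2 : mp v f.discr = 0 := by
      have h0 : f.discr ∉ v.asIdeal := fun h => hcon (hW v h)
      rw [mem_iff_mp hD] at h0
      omega
    have h3 : od v e = 0 := by
      by_contra h
      exact hcon (hW' v h)
    have h4 := hup v
    rw [h1, h2, h3] at h4
    simp at h4
    exact hv h4
  rw [fin_part (g := g) hW', discNorm_eq W hsupp]
  push_cast
  rw [Real.log_prod fun v _ => by
    have : 0 < nv v := by
      have := one_lt_nv v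
      omega
    have : (0 : ℝ) < nv v := by exact_mod_cast this
    exact (pow_pos this _).ne']
  have hN2 : (Nm (2 : 𝓞 K) : ℝ) = 2 ^ Module.finrank ℚ K := by
    rw [Nm_emb, ← Embeddings.card K ℂ, ← card_univ, ← prod_const]
    refine prod_congr rfl fun σ _ => ?_
    have : σ (((2 : 𝓞 K)) : K) = 2 := by
      have : (((2 : 𝓞 K)) : K) = 2 := rfl
      rw [this, map_ofNat]
    rw [this]
    norm_num
  have hlog2 : ∑ v ∈ W, (mp v (2 : 𝓞 K) : ℝ) * Real.log (nv v) =
      Module.finrank ℚ K * Real.log 2 := by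
    rw [← Real.log_pow, ← hN2, Nm_prod h20 W hW2]
    push_cast
    rw [Real.log_prod fun v _ => by
      have := one_lt_nv v
      positivity]
    exact sum_congr rfl fun v _ => (Real.log_pow _ _).symm
  have hlogD : ∑ v ∈ W, (mp v f.discr : ℝ) * Real.log (nv v) = Real.log (Nm f.discr) := by
    rw [Nm_prod hD W hW]
    push_cast
    rw [Real.log_prod fun v _ => by
      have := one_lt_nv v
      positivity]
    exact sum_congr rfl fun v _ => (Real.log_pow _ _).symm
  rw [← hlogD, ← hlog2]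
  unfold sm
  rw [mul_sum, mul_sum, ← sum_add_distrib, ← sum_add_distrib]
  refine sum_le_sum fun v _ => ?_
  have hl := (log_nv_pos v).le
  have hgR : (0 : ℝ) ≤ g := Nat.cast_nonneg g
  have h1 := hup v
  have h1' : (minExp g (curve f e) v : ℝ) ≤ 4 * g * (mp v (2 : 𝓞 K) : ℕ) + (mp v f.discr : ℕ) +
      (4 * g + 2) * ((od v e % 2 : ℤ) : ℝ) := by exact_mod_cast h1
  rw [Real.log_pow]
  have e0 : Ideal.absNorm v.asIdeal = nv v := rfl
  rw [e0]
  refine (mul_le_mul_of_nonneg_right h1' hl).trans ?_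
  by_cases a1 : (2 : 𝓞 K) ∈ v.asIdeal
  · rw [if_neg fun h : (2 : 𝓞 K) ∉ v.asIdeal ∧ Odd (od v e) => h.1 a1]
    have h2 : (1 : ℝ) ≤ mp v (2 : 𝓞 K) := by exact_mod_cast (mem_iff_mp h20).1 a1
    have h3 : ((od v e % 2 : ℤ) : ℝ) ≤ 1 := by
      have : od v e % 2 ≤ 1 := by omega
      exact_mod_cast this
    have h4 : (4 * g + 2) * ((od v e % 2 : ℤ) : ℝ) ≤ (4 * g + 2) * (mp v (2 : 𝓞 K) : ℝ) :=
      mul_le_mul_of_nonneg_left (h3.trans h2) (by positivity)
    have h5 := mul_le_mul_of_nonneg_right h4 hl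
    linarith
  · have h2 : mp v (2 : 𝓞 K) = 0 := by
      rw [mem_iff_mp h20] at a1
      omega
    rw [h2]
    by_cases a2 : Odd (od v e)
    · rw [if_pos ⟨a1, a2⟩, Int.odd_iff.1 a2]
      push_cast
      linarith
    · rw [if_neg fun h : (2 : 𝓞 K) ∉ v.asIdeal ∧ Odd (od v e) => a2 h.2,
        Int.even_iff.1 (Int.not_odd_iff_even.1 a2)]
      push_cast
      linarith

open Classical in
/-- the conductors of all the twists -/
theorem cond_tw (hD : f.discr ≠ 0) (he : e ≠ 0) {κ μ q : ℝ} (hq : 0 ≤ q) (hκ : 0 ≤ κ)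
    (hμ0 : 0 ≤ μ) (hμ : μ ≤ κ) (hμ' : μ ≤ 2 * g * κ - q) :
    μ * (once f.discr - Module.finrank ℚ K * Real.log 2) +
      q * (∑ᶠ v : HeightOneSpectrum (𝓞 K),
        if (2 : 𝓞 K) ∉ v.asIdeal ∧ Odd (od v e) then Real.log (nv v) else 0) ≤
      κ * Real.log (cond g f e) + q * (Real.log (Nm f.discr) - once f.discr) := by
  classical
  obtain ⟨W, hW, hW'⟩ := exists_W hD he
  rw [fin_part (g := g) hW']
  have h2 := sm_sq hD hW
  have h3 := sm_two W
  have h4 : once f.discr - sm W (fun v => (2 : 𝓞 K) ∈ v.asIdeal) ≤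
      sm W (fun v => (2 : 𝓞 K) ∉ v.asIdeal ∧ Once f.discr v) := by
    rw [once_sm hW]
    unfold sm
    rw [← sum_sub_distrib]
    refine sum_le_sum fun v _ => ?_
    have := (log_nv_pos v).le
    by_cases h5 : (2 : 𝓞 K) ∈ v.asIdeal
    · rw [if_pos h5, if_neg fun h : (2 : 𝓞 K) ∉ v.asIdeal ∧ Once f.discr v => h.1 h5]
      split_ifs <;> linarith
    · rw [if_neg h5]
      by_cases h6 : Once f.discr v
      · rw [if_pos h6, if_pos ⟨h5, h6⟩, sub_zero]
      · rw [if_neg h6, if_neg fun h : (2 : 𝓞 K) ∉ v.asIdeal ∧ Once f.discr v => h6 h.2, sub_zero]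
  have hgR : (0 : ℝ) ≤ g := Nat.cast_nonneg g
  have h5 : μ * sm W (fun v => (2 : 𝓞 K) ∉ v.asIdeal ∧ Once f.discr v) -
      q * sm W (fun v => f.discr ∈ v.asIdeal ^ 2) ≤
      κ * Real.log (cond g f e) -
        q * sm W fun v => (2 : 𝓞 K) ∉ v.asIdeal ∧ Odd (od v e) := by
    rw [log_cond hW hW']
    unfold sm
    rw [mul_sum, mul_sum, mul_sum, mul_sum, ← sum_sub_distrib, ← sum_sub_distrib]
    refine sum_le_sum fun v _ => ?_
    have hl := (log_nv_pos v).le
    unfold expo
    by_cases a1 : (2 : 𝓞 K) ∈ v.asIdeal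
    · rw [if_neg fun h : (2 : 𝓞 K) ∉ v.asIdeal ∧ Once f.discr v => h.1 a1,
        if_neg fun h : (2 : 𝓞 K) ∉ v.asIdeal ∧ f.discr ∉ v.asIdeal ^ 2 => h.1 a1,
        if_neg fun h : (2 : 𝓞 K) ∉ v.asIdeal ∧ Odd (od v e) => h.1 a1]
      have : (0 : ℝ) ≤ q * (if f.discr ∈ v.asIdeal ^ 2 then Real.log (nv v) else 0) := by
        split_ifs <;> positivity
      push_cast
      linarith
    · by_cases a2 : f.discr ∈ v.asIdeal ^ 2
      · rw [if_neg fun h : (2 : 𝓞 K) ∉ v.asIdeal ∧ Once f.discr v => h.2.2 a2, if_pos a2,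
          if_neg fun h : (2 : 𝓞 K) ∉ v.asIdeal ∧ f.discr ∉ v.asIdeal ^ 2 => h.2 a2]
        have h9 : 0 ≤ q * Real.log (nv v) := by positivity
        push_cast
        by_cases a3 : (2 : 𝓞 K) ∉ v.asIdeal ∧ Odd (od v e)
        · rw [if_pos a3]
          linarith
        · rw [if_neg a3]
          linarith
      · rw [if_neg a2, if_pos (⟨a1, a2⟩ : (2 : 𝓞 K) ∉ v.asIdeal ∧ f.discr ∉ v.asIdeal ^ 2)]
        have a3 : ((2 : 𝓞 K) ∉ v.asIdeal ∧ Once f.discr v) ↔ f.discr ∈ v.asIdeal :=
          ⟨fun h => h.2.1, fun h => ⟨a1, h, a2⟩⟩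
        have a4 : ((2 : 𝓞 K) ∉ v.asIdeal ∧ Odd (od v e)) ↔ Odd (od v e) :=
          ⟨fun h => h.2, fun h => ⟨a1, h⟩⟩
        simp only [a3, a4]
        by_cases a5 : Odd (od v e)
        · rw [if_pos a5, if_pos a5]
          push_cast
          have b1 : μ * (if f.discr ∈ v.asIdeal then Real.log (nv v) else 0) ≤
              μ * Real.log (nv v) := by
            refine mul_le_mul_of_nonneg_left ?_ hμ0
            split_ifs <;> linarith
          have b2 : μ * Real.log (nv v) ≤ (2 * g * κ - q) * Real.log (nv v) :=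
            mul_le_mul_of_nonneg_right hμ' hl
          nlinarith
        · rw [if_neg a5, if_neg a5]
          split_ifs
          · push_cast
            have b2 : μ * Real.log (nv v) ≤ κ * Real.log (nv v) :=
              mul_le_mul_of_nonneg_right hμ hl
            linarith
          · simp
  have h6 : μ * (once f.discr - Module.finrank ℚ K * Real.log 2) ≤
      μ * sm W (fun v => (2 : 𝓞 K) ∉ v.asIdeal ∧ Once f.discr v) :=
    mul_le_mul_of_nonneg_left (by linarith) hμ0
  have h7 : q * sm W (fun v => f.discr ∈ v.asIdeal ^ 2) ≤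
      q * (Real.log (Nm f.discr) - once f.discr) :=
    mul_le_mul_of_nonneg_left (by linarith) hq
  linarith

end Pool.Agent.H433.CR
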