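import Pool.Agent.H433.CR.Szp
import Pool.Agent.H433.CQ.Def

/-!
The inequality of Szpiro for almost all the curves `e y ^ 2 = φ(x) - t`.
-/

set_option autoImplicit false
set_option linter.unusedSectionVars false
set_option linter.unusedVariables false

open NumberField IsDedekindDomain Finset Polynomial WithZero

namespace Pool.Agent.H433.CR

open Pool.Agent.H433.AC (box nv od Nm Nm_ne od_one)
open Pool.Agent.H433.HD (Once once)
open Pool.Agent.W318 (IsHyp minExp discNorm discNorm_eq)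

variable {K : Type} [Field K] [NumberField K]

/-- All the twists of `y ^ 2 = f(x)` are curves of genus `g`, for all of them `Δ ≤ c N ^ κ`, and
`Δ ≤ c N ^ κ'` for the curve itself. -/
def Szpiro (g : ℕ) (κ κ' c : ℝ) (f : (𝓞 K)[X]) : Prop :=
  (∀ e : K, e ≠ 0 → IsHyp g (curve f e) ∧
    (discNorm g (curve f e) : ℝ) ≤ c * (cond g f e : ℝ) ^ κ) ∧
  (discNorm g (curve f (1 : K)) : ℝ) ≤ c * (cond g f (1 : K) : ℝ) ^ κ'

theorem num2 {N O S L lc Cn X κ μ q ε m D2 k : ℝ} (hμ : 1 < μ) (hq : 0 ≤ q) (hm : 1 ≤ m)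
    (hX : 0 ≤ X) (hε : ε * (1 + 2 * q + μ) ≤ (μ - 1) / 2) (hN : N ≤ (m + ε) * X)
    (hO : (m - ε) * X ≤ O) (h1 : L ≤ N + q * S + k * D2)
    (h2 : μ * (O - D2) + q * S ≤ κ * Cn + q * (N - O))
    (h3 : |lc| + (μ + k) * D2 ≤ (μ - 1) / 2 * X) : L ≤ lc + κ * Cn := by
  have h4 := mul_le_mul_of_nonneg_left hN (by linarith : (0 : ℝ) ≤ 1 + q)
  have h5 := mul_le_mul_of_nonneg_left hO (by linarith : (0 : ℝ) ≤ q + μ)
  have h6 := mul_le_mul_of_nonneg_right hε hX
  have h7 : (μ - 1) * X ≤ (μ - 1) * X * m :=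
    le_mul_of_one_le_right (mul_nonneg (by linarith) hX) hm
  have h8 := neg_abs_le lc
  have e4 : (1 + q) * ((m + ε) * X) = (1 + q) * m * X + (1 + q) * ε * X := by ring
  have e5 : (q + μ) * ((m - ε) * X) = (q + μ) * m * X - (q + μ) * ε * X := by ring
  have e6 : ε * (1 + 2 * q + μ) * X = (1 + q) * ε * X + (q + μ) * ε * X := by ring
  have e7 : (μ - 1) * X * m = (q + μ) * m * X - (1 + q) * m * X := by ring
  rw [e4] at h4
  rw [e5] at h5
  rw [e6] at h6
  rw [e7] at h7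
  linarith

theorem exp_form {L Cn : ℕ} {c κ : ℝ} (hL : 0 < L) (hC : 0 < Cn) (hc : 0 < c)
    (h : Real.log L ≤ Real.log c + κ * Real.log Cn) : (L : ℝ) ≤ c * (Cn : ℝ) ^ κ := by
  have hL' : (0 : ℝ) < L := by exact_mod_cast hL
  have hC' : (0 : ℝ) < Cn := by exact_mod_cast hC
  have h1 : (0 : ℝ) < c * (Cn : ℝ) ^ κ := by positivity
  rw [← Real.log_le_log_iff hL' h1, Real.log_mul hc.ne' (by positivity), Real.log_rpow hC']
  exact h

theorem cond_pos (g : ℕ) (f : (𝓞 K)[X]) (e : K) : 0 < cond g f e := by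
  unfold cond
  by_cases h : (Function.mulSupport fun v : HeightOneSpectrum (𝓞 K) =>
      nv v ^ expo g f e v).Finite
  · rw [finprod_eq_prod _ h]
    refine prod_pos fun v _ => pow_pos ?_ _
    have := AC.one_lt_nv v
    omega
  · rw [finprod_of_infinite_mulSupport h]
    exact one_pos

theorem disc_pos (g : ℕ) (F : K[X]) : 0 < discNorm g F := by
  unfold discNorm
  by_cases h : (Function.mulSupport fun v : HeightOneSpectrum (𝓞 K) =>
      Ideal.absNorm v.asIdeal ^ minExp g F v).Finite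
  · rw [finprod_eq_prod _ h]
    refine prod_pos fun v _ => pow_pos ?_ _
    have := AC.one_lt_nv v
    unfold nv at this
    omega
  · rw [finprod_of_infinite_mulSupport h]
    exact one_pos

open Classical in
theorem szp (g m : ℕ) (hg : 1 ≤ g) (hm : m = 2 * g ∨ m = 2 * g + 1) (K : Type) [Field K]
    [NumberField K] {A : ℝ} (hA : 1 ≤ A) {κ κ' c : ℝ} (hκ : (4 * (g : ℝ) + 3) / (2 * g) < κ)
    (hκ' : 1 < κ') (hc : 0 < c) :
    ∃ C δ : ℝ, 0 < δ ∧ ∀ T : ℕ, 1 ≤ T → ∀ (φ : (𝓞 K)[X]) (p : Fin m → 𝓞 K), CQ.Crit m A T φ p →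
      (((box K T).filter fun t => ¬ Szpiro g κ κ' c (φ - Polynomial.C t)).card : ℝ) ≤
        C * (T : ℝ) ^ (-δ) * (box K T).card := by
  have hgR : (1 : ℝ) ≤ g := by exact_mod_cast hg
  have hmR : (1 : ℝ) ≤ m := by
    have : 1 ≤ m := by omega
    exact_mod_cast this
  have hκg : 1 < 2 * g * κ - (4 * g + 2) := by
    rw [div_lt_iff₀ (by positivity)] at hκ
    linarith
  have hκ1 : 1 < κ := by
    refine lt_of_le_of_lt ?_ hκ
    rw [le_div_iff₀ (by positivity)]
    linarith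
  set q : ℝ := 4 * g + 2 with hq
  have hq0 : 0 ≤ q := by positivity
  set μ : ℝ := min κ (2 * g * κ - q) with hμ
  have hμ1 : 1 < μ := lt_min hκ1 hκg
  have hl2 : 0 ≤ Real.log 2 := Real.log_nonneg (by norm_num)
  set d : ℝ := (Module.finrank ℚ K : ℝ) with hd
  have hd1 : 1 ≤ d := by
    have : 1 ≤ Module.finrank ℚ K := Module.finrank_pos
    rw [hd]
    exact_mod_cast this
  set ε₁ : ℝ := (μ - 1) / (2 * (1 + 2 * q + μ)) with hε₁
  set ε₂ : ℝ := (κ' - 1) / (2 * (1 + 2 * 0 + κ')) with hε₂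
  have hε₁0 : 0 < ε₁ := div_pos (by linarith) (by positivity)
  have hε₂0 : 0 < ε₂ := div_pos (by linarith) (by positivity)
  set ε := min ε₁ ε₂ with hε
  have hε0 : 0 < ε := lt_min hε₁0 hε₂0
  have he1 : ε * (1 + 2 * q + μ) ≤ (μ - 1) / 2 := by
    have h1 : ε ≤ (μ - 1) / (2 * (1 + 2 * q + μ)) := min_le_left _ _
    rw [le_div_iff₀ (by positivity)] at h1
    linarith
  have he2 : ε * (1 + 2 * 0 + κ') ≤ (κ' - 1) / 2 := by
    have h1 : ε ≤ (κ' - 1) / (2 * (1 + 2 * 0 + κ')) := min_le_right _ _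
    rw [le_div_iff₀ (by positivity)] at h1
    linarith
  set x₁ : ℝ := max (2 * (|Real.log c| + (μ + (8 * g + 2)) * (d * Real.log 2)) / (μ - 1))
    (2 * (|Real.log c| + (κ' + (8 * g + 2)) * (d * Real.log 2)) / (κ' - 1)) with hx₁
  obtain ⟨C, δ, hδ, h⟩ := typ (g := g) hm K hA hε0 x₁
  refine ⟨C, δ, hδ, fun T hT φ p hp => ?_⟩
  obtain ⟨S, hS, h1⟩ := h T hT φ p hp
  refine le_trans ?_ hS
  norm_cast
  refine card_le_card fun t ht => ?_
  rw [mem_filter] at ht
  by_contra hn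
  obtain ⟨hx, hD, hO, hN, -, -⟩ := h1 t ht.1 hn
  apply ht.2
  obtain ⟨hmon, hdeg, -⟩ := discr_prod hp t
  have hdeg' : (φ - Polynomial.C t).natDegree = 2 * g + 1 ∨
      (φ - Polynomial.C t).natDegree = 2 * g + 2 := by omega
  have hT0 : 0 ≤ Real.log T := Real.log_natCast_nonneg T
  set X := d * Real.log T with hX
  have hXx : Real.log T ≤ X := le_mul_of_one_le_left hT0 hd1
  have hX0 : 0 ≤ X := hT0.trans hXx
  have hc1 : |Real.log c| + (μ + (8 * g + 2)) * (d * Real.log 2) ≤ (μ - 1) / 2 * X := by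
    have h2 := (le_max_left _ _).trans (hx.trans hXx)
    rw [div_le_iff₀ (by linarith)] at h2
    linarith
  have hc2 : |Real.log c| + (κ' + (8 * g + 2)) * (d * Real.log 2) ≤ (κ' - 1) / 2 * X := by
    have h2 := (le_max_right _ _).trans (hx.trans hXx)
    rw [div_le_iff₀ (by linarith)] at h2
    linarith
  refine ⟨fun e he => ⟨isHyp_of hdeg' hmon hD he, ?_⟩, ?_⟩
  · refine exp_form (disc_pos _ _) (cond_pos _ _ _) hc ?_
    exact num2 hμ1 hq0 hmR hX0 he1 hN hO (log_disc_up hdeg' hmon hD he)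
      (cond_tw hD he hq0 (by linarith) (by linarith) (min_le_left _ _) (min_le_right _ _)) hc1
  · refine exp_form (disc_pos _ _) (cond_pos _ _ _) hc ?_
    have h0 : (∑ᶠ v : HeightOneSpectrum (𝓞 K),
        if (2 : 𝓞 K) ∉ v.asIdeal ∧ Odd (od v (1 : K)) then Real.log (nv v) else 0) = 0 := by
      refine finsum_eq_zero_of_forall_eq_zero fun v => ?_
      rw [od_one, if_neg fun h => absurd h.2 (by decide)]
    have h2 := log_disc_up hdeg' hmon hD (one_ne_zero : (1 : K) ≠ 0)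
    have h3 := cond_tw (g := g) hD (one_ne_zero : (1 : K) ≠ 0) (le_refl (0 : ℝ))
      (by linarith : (0 : ℝ) ≤ κ') (by linarith : (0 : ℝ) ≤ κ') (le_refl κ') (by nlinarith)
    rw [h0, mul_zero] at h2
    refine num2 (S := 0) hκ' (le_refl 0) hmR hX0 he2 hN hO ?_ ?_ hc2
    · rw [mul_zero]
      exact h2
    · rw [h0] at h3
      exact h3

end Pool.Agent.H433.CR
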