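import Pool.Agent.H433.CR.Szp2

/-!
The primes which divide the discriminant once are primes of bad reduction.
-/

set_option autoImplicit false
set_option linter.unusedSectionVars false
set_option linter.unusedVariables false

open NumberField IsDedekindDomain Finset Polynomial WithZero

namespace Pool.Agent.H433.CR

open Pool.Agent.H433.AC (nv od Nm Nm_prod mp le_mp mem_iff_mp finite_mem finite_od log_nv_pos
  one_lt_nv od_one od_mul od_pow od_int)
open Pool.Agent.H433.HD (Once once)
open Pool.Agent.W318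

variable {K : Type} [Field K] [NumberField K]

/-- the discriminant of a binary form after a substitution -/
theorem val_disc_act (v : HeightOneSpectrum (𝓞 K)) {h : ℕ} (hh : 2 ≤ h) {F : K[X]}
    (hF : GoodForm h F) {a b c d l : K} (hdet : a * d - b * c ≠ 0) (hl : l ≠ 0) :
    v.valuation K (discN (h + h) (C (l ^ 2) * act (h + h) a b c d F)) =
      v.valuation K ((l ^ 2 * (a * d - b * c) ^ h) ^ (2 * (h + h - 1)) * discN (h + h) F) := by
  let M := F.SplittingField
  haveI : CharZero M := charZero_of_injective_algebraMap (algebraMap K M).injective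
  haveI : NumberField M := NumberField.of_module_finite K M
  obtain ⟨W, hW⟩ := exists_prime_over (M := M) v
  have hsplit : (F.map (algebraMap K M)).Splits := SplittingField.splits F
  have hc : Compat v W (v.asIdeal.ramificationIdx' W.asIdeal) := by
    refine ⟨ram_pos v W, fun x k hx => ?_⟩
    rw [absW_exp W (absW_liesOver v W hx)]
    congr 1
    ring
  obtain ⟨u, α, β, hu, _, hne, hfac⟩ := exists_factor_form (absW W) (by omega : 1 ≤ h) hF.2 hF.1
    hsplit
  have hdet' : algebraMap K M a * algebraMap K M d - algebraMap K M b * algebraMap K M c ≠ 0 := by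
    rw [← map_mul, ← map_mul, ← map_sub, Ne, map_eq_zero]
    exact hdet
  have hl' : algebraMap K M l ≠ 0 := by rwa [Ne, map_eq_zero]
  have h1 := disc_sq_act (A := absW W) hu hne hh hdet' hl'
  rw [← hfac, ← act_map, ← map_pow (algebraMap K M) l 2, ← Polynomial.map_C,
    ← Polynomial.map_mul, discN_map, discN_map, ← map_mul, ← map_mul, ← map_sub] at h1
  have h2 : absW W (algebraMap K M (discN (h + h) (C (l ^ 2) * act (h + h) a b c d F))) =
      absW W (algebraMap K M ((l ^ 2 * (a * d - b * c) ^ h) ^ (2 * (h + h - 1)) *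
        discN (h + h) F)) := by
    rw [h1]
    simp only [map_mul, map_pow]
  exact le_antisymm ((hc.le_iff _ _).1 h2.le) ((hc.le_iff _ _).1 h2.ge)

/-- at an odd place of good reduction some form equivalent to `F` has unit discriminant -/
theorem exists_good {g : ℕ} (hg : 2 ≤ g) {F : K[X]} (hF : IsHyp g F)
    {v : HeightOneSpectrum (𝓞 K)} (h2 : v.valuation K (2 : K) = 1) (h0 : minExp g F v = 0) :
    ∃ G : K[X], Eqv (g + 1) F G ∧ (∀ i, v.valuation K (G.coeff i) ≤ 1) ∧
      v.valuation K (discN (g + 1 + (g + 1)) G) = 1 := by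
  obtain ⟨f, f₂, hM, hn⟩ := exists_min_model hF v
  obtain ⟨φ⟩ := hM.iso
  have hbr := bridge hg hF.1 hF.2 hM.upper φ
  have hgood' : GoodForm (g + 1) (4 * f + f₂ ^ 2) := hbr.good (by omega) hF.good
  refine ⟨4 * f + f₂ ^ 2, hbr, int_comb v hM.int hM.int₂, ?_⟩
  have h4 : (1 / 4 : K) ≠ 0 := by norm_num
  rw [h0] at hn
  rw [modelDisc_eq, four_mul_form, discN_C_mul (by omega) h4 hgood'.2, map_mul, map_mul,
    map_pow, map_pow, h2] at hn
  have h5 : v.valuation K (1 / 4 : K) = 1 := by
    have : (1 / 4 : K) = (2 * 2)⁻¹ := by norm_num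
    rw [this, map_inv₀, map_mul, h2]
    norm_num
  rw [h5] at hn
  simpa using hn

theorem val_two {v : HeightOneSpectrum (𝓞 K)} (h2 : (2 : 𝓞 K) ∉ v.asIdeal) :
    v.valuation K (2 : K) = 1 := by
  have h20 : (2 : 𝓞 K) ≠ 0 := by norm_num
  have e : algebraMap (𝓞 K) K 2 = (2 : K) := map_ofNat _ 2
  have h1 : od v (2 : K) = 0 := by
    rw [← e]
    have := od_int v h20
    rw [show mp v (2 : 𝓞 K) = 0 by rw [mem_iff_mp h20] at h2; omega] at this
    exact_mod_cast this
  have h3 : v.valuation K (2 : K) ≠ 0 := (Valuation.ne_zero_iff _).2 two_ne_zero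
  unfold od at h1
  have h4 : WithZero.log (v.valuation K (2 : K)) = 0 := by omega
  rw [← exp_log h3, h4, exp_zero]

/-- bad reduction at the simple places, for all the twists -/
theorem bad_once {g : ℕ} (hg : 2 ≤ g) {f : (𝓞 K)[X]} {e : K}
    (hd : f.natDegree = 2 * g + 1 ∨ f.natDegree = 2 * g + 2) (hP : f.Monic)
    (hD : f.discr ≠ 0) (he : e ≠ 0) {v : HeightOneSpectrum (𝓞 K)} (h2 : (2 : 𝓞 K) ∉ v.asIdeal)
    (hv : Once f.discr v) : minExp g (curve f e) v ≠ 0 := by
  intro h0
  have hF := isHyp_of hd hP hD he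
  obtain ⟨G, ⟨a, b, c, d, l, hdet, hl, hG⟩, -, hdisc⟩ := exists_good hg hF (val_two h2) h0
  have h1 := val_disc_act v (by omega : 2 ≤ g + 1) hF.good hdet hl
  rw [← hG, hdisc] at h1
  have hmon : (f.map (algebraMap (𝓞 K) K)).Monic := hP.map _
  have hnd : (f.map (algebraMap (𝓞 K) K)).natDegree = f.natDegree := hP.natDegree_map _
  have hdisc' : discN (g + 1 + (g + 1)) (curve f e) =
      e ^ (2 * (g + 1 + (g + 1) - 1)) * ((f.discr : 𝓞 K) : K) := by
    unfold curve
    rw [discN_C_mul (by omega) he (by rw [hnd]; omega)]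
    congr 1
    unfold discN
    rw [hmon.leadingCoeff, one_pow, one_mul, ite_self, discr_map']
  have hDK : ((f.discr : 𝓞 K) : K) ≠ 0 := fun h => hD (RingOfIntegers.coe_eq_zero_iff.1 h)
  have hx : l ^ 2 * (a * d - b * c) ^ (g + 1) ≠ 0 :=
    mul_ne_zero (pow_ne_zero _ hl) (pow_ne_zero _ hdet)
  have h3 : od v ((l ^ 2 * (a * d - b * c) ^ (g + 1)) ^ (2 * (g + 1 + (g + 1) - 1)) *
      discN (g + 1 + (g + 1)) (curve f e)) = 0 := by
    unfold od
    rw [← h1]
    simp
  rw [hdisc', od_mul v (pow_ne_zero _ hx) (mul_ne_zero (pow_ne_zero _ he) hDK),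
    od_mul v (pow_ne_zero _ he) hDK, od_pow, od_pow, od_int v hD] at h3
  have h4 : mp v f.discr = 1 := by
    have h5 := (mem_iff_mp hD).1 hv.1
    have h6 : ¬ 2 ≤ mp v f.discr := fun h => hv.2 ((le_mp hD 2).2 h)
    omega
  rw [h4] at h3
  have h5 : 2 * (g + 1 + (g + 1) - 1) = 2 * (2 * g + 1) := by omega
  rw [h5] at h3
  generalize od v (l ^ 2 * (a * d - b * c) ^ (g + 1)) = s at h3
  generalize od v e = r at h3
  push_cast at h3
  have h6 : (2 * (2 * (g : ℤ) + 1)) * (s + r) = -1 := by linarith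
  have h7 : (2 : ℤ) ∣ -1 := ⟨(2 * (g : ℤ) + 1) * (s + r), by linarith⟩
  omega

end Pool.Agent.H433.CR
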