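import Pool.Agent.H433.CR.Szp3

/-!
The inequality of Szpiro for almost all the curves `e y ^ 2 = φ(x) - t`, also with the product of the
primes of bad reduction.
-/

set_option autoImplicit false
set_option linter.unusedSectionVars false
set_option linter.unusedVariables false

open NumberField IsDedekindDomain Finset Polynomial WithZero

namespace Pool.Agent.H433.CR

open Pool.Agent.H433.AC (box nv od Nm Nm_ne od_one)
open Pool.Agent.H433.HD (Once once)
open Pool.Agent.W318 (IsHyp minExp discNorm discNorm_eq badNorm badNorm_eq finite_bad)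

variable {K : Type} [Field K] [NumberField K]

theorem cond_le_bad {g : ℕ} (hg : 2 ≤ g) {f : (𝓞 K)[X]}
    (hd : f.natDegree = 2 * g + 1 ∨ f.natDegree = 2 * g + 2) (hP : f.Monic)
    (hD : f.discr ≠ 0) : cond g f (1 : K) ≤ badNorm g (curve f (1 : K)) := by
  classical
  have hF := isHyp_of (g := g) hd hP hD (one_ne_zero : (1 : K) ≠ 0)
  have hB := finite_bad hF
  rw [badNorm_eq hB.toFinset (fun v => by simp)]
  unfold cond
  have h1 : ∀ v : HeightOneSpectrum (𝓞 K), expo g f (1 : K) v =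
      if (2 : 𝓞 K) ∉ v.asIdeal ∧ f.discr ∉ v.asIdeal ^ 2 then
        (if f.discr ∈ v.asIdeal then 1 else 0) else 0 := by
    intro v
    unfold expo
    rw [od_one, if_neg (by decide : ¬ Odd (0 : ℤ))]
  rw [finprod_eq_prod_of_mulSupport_subset (s := hB.toFinset)]
  · refine prod_le_prod' fun v _ => ?_
    have h2 : expo g f (1 : K) v ≤ 1 := by
      rw [h1]
      split_ifs <;> omega
    have h3 : 0 < nv v := by
      have := AC.one_lt_nv v
      omega
    calc nv v ^ expo g f (1 : K) v ≤ nv v ^ 1 := Nat.pow_le_pow_right h3 h2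
      _ = Ideal.absNorm v.asIdeal := pow_one _
  · intro v hv
    rw [Function.mem_mulSupport] at hv
    have h2 : expo g f (1 : K) v ≠ 0 := by
      intro h
      rw [h, pow_zero] at hv
      exact hv rfl
    rw [h1] at h2
    have h3 : (2 : 𝓞 K) ∉ v.asIdeal ∧ f.discr ∉ v.asIdeal ^ 2 := by
      by_contra h
      rw [if_neg h] at h2
      exact h2 rfl
    rw [if_pos h3] at h2
    have h4 : f.discr ∈ v.asIdeal := by
      by_contra h
      rw [if_neg h] at h2
      exact h2 rfl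
    have h5 := bad_once hg hd hP hD (one_ne_zero : (1 : K) ≠ 0) h3.1 ⟨h4, h3.2⟩
    simpa using h5

/-- `Szpiro`, and `Δ ≤ c M ^ κ'` for the curve itself, where `M` is the product of the norms of the
primes of bad reduction (if `g ≥ 2`). -/
def SzpiroB (g : ℕ) (κ κ' c : ℝ) (f : (𝓞 K)[X]) : Prop :=
  Szpiro g κ κ' c f ∧
  (2 ≤ g → (discNorm g (curve f (1 : K)) : ℝ) ≤ c * (badNorm g (curve f (1 : K)) : ℝ) ^ κ')

open Classical in
theorem szpB (g m : ℕ) (hg : 1 ≤ g) (hm : m = 2 * g ∨ m = 2 * g + 1) (K : Type) [Field K]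
    [NumberField K] {A : ℝ} (hA : 1 ≤ A) {κ κ' c : ℝ} (hκ : (4 * (g : ℝ) + 3) / (2 * g) < κ)
    (hκ' : 1 < κ') (hc : 0 < c) :
    ∃ C δ : ℝ, 0 < δ ∧ ∀ T : ℕ, 1 ≤ T → ∀ (φ : (𝓞 K)[X]) (p : Fin m → 𝓞 K), CQ.Crit m A T φ p →
      (((box K T).filter fun t => ¬ SzpiroB g κ κ' c (φ - Polynomial.C t)).card : ℝ) ≤
        C * (T : ℝ) ^ (-δ) * (box K T).card := by
  have hgR : (1 : ℝ) ≤ g := by exact_mod_cast hg
  have hmR : (1 : ℝ) ≤ m := by
    have : 1 ≤ m := by omega
    exact_mod_cast this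
  have hκg : 1 < 2 * g * κ - (4 * g + 2) := by
    rw [div_lt_iff₀ (by positivity)] at hκ
    linarith
  have hκ1 : 1 < κ := by
    refine lt_of_le_of_lt ?_ hκ
    rw [le_div_iff₀ (by positivity)]
    linarith
  set q : ℝ := 4 * g + 2 with hq
  have hq0 : 0 ≤ q := by positivity
  set μ : ℝ := min κ (2 * g * κ - q) with hμ
  have hμ1 : 1 < μ := lt_min hκ1 hκg
  have hl2 : 0 ≤ Real.log 2 := Real.log_nonneg (by norm_num)
  set d : ℝ := (Module.finrank ℚ K : ℝ) with hd
  have hd1 : 1 ≤ d := by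
    have : 1 ≤ Module.finrank ℚ K := Module.finrank_pos
    rw [hd]
    exact_mod_cast this
  set ε₁ : ℝ := (μ - 1) / (2 * (1 + 2 * q + μ)) with hε₁
  set ε₂ : ℝ := (κ' - 1) / (2 * (1 + 2 * 0 + κ')) with hε₂
  have hε₁0 : 0 < ε₁ := div_pos (by linarith) (by positivity)
  have hε₂0 : 0 < ε₂ := div_pos (by linarith) (by positivity)
  set ε := min ε₁ ε₂ with hε
  have hε0 : 0 < ε := lt_min hε₁0 hε₂0
  have he1 : ε * (1 + 2 * q + μ) ≤ (μ - 1) / 2 := by
    have h1 : ε ≤ (μ - 1) / (2 * (1 + 2 * q + μ)) := min_le_left _ _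
    rw [le_div_iff₀ (by positivity)] at h1
    linarith
  have he2 : ε * (1 + 2 * 0 + κ') ≤ (κ' - 1) / 2 := by
    have h1 : ε ≤ (κ' - 1) / (2 * (1 + 2 * 0 + κ')) := min_le_right _ _
    rw [le_div_iff₀ (by positivity)] at h1
    linarith
  set x₁ : ℝ := max (2 * (|Real.log c| + (μ + (8 * g + 2)) * (d * Real.log 2)) / (μ - 1))
    (2 * (|Real.log c| + (κ' + (8 * g + 2)) * (d * Real.log 2)) / (κ' - 1)) with hx₁
  obtain ⟨C, δ, hδ, h⟩ := typ (g := g) hm K hA hε0 x₁
  refine ⟨C, δ, hδ, fun T hT φ p hp => ?_⟩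
  obtain ⟨S, hS, h1⟩ := h T hT φ p hp
  refine le_trans ?_ hS
  norm_cast
  refine card_le_card fun t ht => ?_
  rw [mem_filter] at ht
  by_contra hn
  obtain ⟨hx, hD, hO, hN, -, -⟩ := h1 t ht.1 hn
  apply ht.2
  obtain ⟨hmon, hdeg, -⟩ := discr_prod hp t
  have hdeg' : (φ - Polynomial.C t).natDegree = 2 * g + 1 ∨
      (φ - Polynomial.C t).natDegree = 2 * g + 2 := by omega
  have hT0 : 0 ≤ Real.log T := Real.log_natCast_nonneg T
  set X := d * Real.log T with hX
  have hXx : Real.log T ≤ X := le_mul_of_one_le_left hT0 hd1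
  have hX0 : 0 ≤ X := hT0.trans hXx
  have hc1 : |Real.log c| + (μ + (8 * g + 2)) * (d * Real.log 2) ≤ (μ - 1) / 2 * X := by
    have h2 := (le_max_left _ _).trans (hx.trans hXx)
    rw [div_le_iff₀ (by linarith)] at h2
    linarith
  have hc2 : |Real.log c| + (κ' + (8 * g + 2)) * (d * Real.log 2) ≤ (κ' - 1) / 2 * X := by
    have h2 := (le_max_right _ _).trans (hx.trans hXx)
    rw [div_le_iff₀ (by linarith)] at h2
    linarith
  suffices hs : Szpiro g κ κ' c (φ - Polynomial.C t) from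
    ⟨hs, fun hg2 => hs.2.trans (mul_le_mul_of_nonneg_left
      (Real.rpow_le_rpow (Nat.cast_nonneg _)
        (by exact_mod_cast cond_le_bad hg2 hdeg' hmon hD) (by linarith)) hc.le)⟩
  refine ⟨fun e he => ⟨isHyp_of hdeg' hmon hD he, ?_⟩, ?_⟩
  · refine exp_form (disc_pos _ _) (cond_pos _ _ _) hc ?_
    exact num2 hμ1 hq0 hmR hX0 he1 hN hO (log_disc_up hdeg' hmon hD he)
      (cond_tw hD he hq0 (by linarith) (by linarith) (min_le_left _ _) (min_le_right _ _)) hc1
  · refine exp_form (disc_pos _ _) (cond_pos _ _ _) hc ?_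
    have h0 : (∑ᶠ v : HeightOneSpectrum (𝓞 K),
        if (2 : 𝓞 K) ∉ v.asIdeal ∧ Odd (od v (1 : K)) then Real.log (nv v) else 0) = 0 := by
      refine finsum_eq_zero_of_forall_eq_zero fun v => ?_
      rw [od_one, if_neg fun h => absurd h.2 (by decide)]
    have h2 := log_disc_up hdeg' hmon hD (one_ne_zero : (1 : K) ≠ 0)
    have h3 := cond_tw (g := g) hD (one_ne_zero : (1 : K) ≠ 0) (le_refl (0 : ℝ))
      (by linarith : (0 : ℝ) ≤ κ') (by linarith : (0 : ℝ) ≤ κ') (le_refl κ') (by nlinarith)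
    rw [h0, mul_zero] at h2
    refine num2 (S := 0) hκ' (le_refl 0) hmR hX0 he2 hN hO ?_ ?_ hc2
    · rw [mul_zero]
      exact h2
    · rw [h0] at h3
      exact h3

end Pool.Agent.H433.CR
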