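import Pool.Agent.H433.CR.Def
import Pool.Agent.H433.AC.Vol
import Pool.Agent.H433.EW.Poly

/-!
The archimedean part of the height: bounds in terms of the size of the roots and of the
discriminant.
-/

set_option autoImplicit false
set_option linter.unusedSectionVars false
set_option linter.unusedVariables false

open NumberField IsDedekindDomain MeasureTheory Finset Polynomial
open scoped ENNReal

namespace Pool.Agent.H433.CR

open Pool.Agent.H433.AC (prs wt dm nb)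

theorem eval_enorm {n : ℕ} (z : Fin n → ℂ) (y : ℂ) :
    ‖(∏ i, (X - C (z i)) : ℂ[X]).eval y‖ₑ⁻¹ = ∏ i, ‖y - z i‖ₑ ^ (-1 : ℝ) := by
  rw [ENNReal.prod_rpow_of_ne_top fun i _ => enorm_ne_top, ENNReal.rpow_neg_one, eval_prod]
  congr 1
  simp only [eval_sub, eval_X, eval_C]
  have h1 : ‖∏ i, (y - z i)‖ₑ = ∏ i, ‖y - z i‖ₑ := by
    simp only [enorm_eq_nnnorm, nnnorm_prod]
    push_cast
    rfl
  exact h1

theorem vol_eq {n : ℕ} (z : Fin n → ℂ) {d : ℕ} (hd : dm (fun _ : Fin n => (1 : ZMod 2)) = d) :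
    vol d (∏ i, (X - C (z i))) = AC.vol (fun _ : Fin n => (1 : ZMod 2)) z := by
  subst hd
  unfold vol AC.vol
  congr 1
  refine lintegral_congr fun x => ?_
  congr 1
  refine prod_congr rfl fun s _ => ?_
  rw [eval_enorm]
  refine prod_congr rfl fun i _ => ?_
  congr 1
  rw [ZMod.val_one]
  norm_num

theorem exists_roots {n : ℕ} {F : ℂ[X]} (hF : F.Monic) (hn : F.natDegree = n) :
    ∃ z : Fin n → ℂ, F = ∏ i, (X - C (z i)) := by
  have hs := IsAlgClosed.splits F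
  have h1 := hs.eq_prod_roots_of_monic hF
  have h2 := hs.natDegree_eq_card_roots
  obtain ⟨l, hl⟩ := Quot.exists_rep F.roots
  rw [hn, ← hl] at h2
  have hlen : n = l.length := h2
  subst hlen
  refine ⟨l.get, ?_⟩
  rw [h1, ← hl]
  show (Multiset.map (fun x => X - C x) (l : Multiset ℂ)).prod = _
  rw [Multiset.map_coe, Multiset.prod_coe, ← List.prod_ofFn]
  conv_lhs => rw [← List.ofFn_get l, List.map_ofFn]
  rfl

theorem wt_one (n : ℕ) : wt (fun _ : Fin n => (1 : ZMod 2)) = n := by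
  unfold wt
  simp [ZMod.val_one]

theorem dm_one {g m : ℕ} (hm : m = 2 * g ∨ m = 2 * g + 1) :
    dm (fun _ : Fin (m + 1) => (1 : ZMod 2)) = g := by
  unfold dm
  rw [wt_one]
  omega

theorem al_one {g m : ℕ} (hm : m = 2 * g ∨ m = 2 * g + 1) :
    (g : ℝ) * (((m + 1 : ℕ) : ℝ) / (2 : ℕ)) - g * (g + 1) / 2 =
      m * g / (8 * g + 4) * (m + 1) := by
  have h0 : (8 * g + 4 : ℝ) ≠ 0 := by positivity
  rcases hm with h | h
  · rw [h]
    push_cast
    field_simp
    ring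
  · rw [h]
    push_cast
    field_simp
    ring

/-- both bounds -/
theorem arch_both {g m : ℕ} (hm : m = 2 * g ∨ m = 2 * g + 1) : ∃ C : ℝ, 0 ≤ C ∧
    ∀ (F : ℂ[X]) (R : ℝ), 0 < R → F.Monic → F.natDegree = m + 1 → F.discr ≠ 0 →
      (∀ z, F.eval z = 0 → ‖z‖ ≤ R) →
      -(1 / 2) * Real.log (vol g F) ≤ m * g / (8 * g + 4) * (m + 1) * Real.log R + C ∧
      m * g / (8 * g + 4) * (m + 1) * Real.log R - C - g * ((m + 1) / 2) *
        ((prs (m + 1)).card * Real.log (2 * R) - 1 / 2 * Real.log ‖F.discr‖) ≤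
        -(1 / 2) * Real.log (vol g F) := by
  obtain ⟨C₀, hC, h⟩ := AC.arch (fun _ : Fin (m + 1) => (1 : ZMod 2))
  refine ⟨C₀, hC, fun F R hR hF hn hD hz => ?_⟩
  obtain ⟨z, rfl⟩ := exists_roots hF hn
  have hzR (i : Fin (m + 1)) : ‖z i‖ ≤ R := by
    refine hz _ ?_
    rw [eval_prod]
    exact prod_eq_zero (mem_univ i) (by simp)
  obtain ⟨k, hk⟩ := EW.discr_map (RingHom.id ℂ) Function.injective_id hn (by omega)
    (r := z) (by rw [Polynomial.map_id, hF.leadingCoeff]; simp)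
  rw [RingHom.id_apply, RingHom.id_apply, hF.leadingCoeff, one_pow, mul_one] at hk
  have hkn : ‖(∏ i, (X - C (z i)) : ℂ[X]).discr‖ = (∏ q ∈ prs (m + 1), ‖z q.1 - z q.2‖) ^ 2 := by
    rw [hk, norm_mul, norm_pow, norm_neg, norm_one, one_pow, one_mul, norm_pow, norm_prod]
  set Δ : ℝ := ‖(∏ i, (X - C (z i)) : ℂ[X]).discr‖ with hΔ
  have hΔ0 : 0 < Δ := norm_pos_iff.2 hD
  set P : ℝ := ∏ q ∈ prs (m + 1), ‖z q.1 - z q.2‖ with hP
  have hP0 : 0 < P := by
    have h1 : 0 ≤ P := prod_nonneg fun q _ => norm_nonneg _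
    rcases h1.eq_or_lt with h2 | h2
    · rw [← h2] at hkn
      norm_num at hkn
      exact absurd hkn hΔ0.ne'
    · exact h2
  have hd2 (i j : Fin (m + 1)) : ‖z i - z j‖ ≤ 2 * R := by
    refine (norm_sub_le _ _).trans ?_
    linarith [hzR i, hzR j]
  set N := (prs (m + 1)).card with hN
  set ρ : ℝ := P / (2 * R) ^ N * R with hρ
  have h2R : 0 < (2 * R) ^ N := by positivity
  have hρ0 : 0 < ρ := by positivity
  have hPle : P ≤ (2 * R) ^ N := by
    rw [hP, hN, ← prod_const]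
    exact prod_le_prod (fun q _ => norm_nonneg _) fun q _ => hd2 _ _
  have hρR : ρ ≤ R := by
    rw [hρ]
    exact mul_le_of_le_one_left hR.le ((div_le_one h2R).2 hPle)
  have hpair (q : Fin (m + 1) × Fin (m + 1)) (hq : q ∈ prs (m + 1)) : ρ ≤ ‖z q.1 - z q.2‖ := by
    have h1 : P ≤ ‖z q.1 - z q.2‖ * (2 * R) ^ (N - 1) := by
      rw [hP, ← mul_prod_erase _ _ hq, hN, ← card_erase_of_mem hq, ← prod_const]
      refine mul_le_mul_of_nonneg_left ?_ (norm_nonneg _)
      exact prod_le_prod (fun q _ => norm_nonneg _) fun q _ => hd2 _ _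
    have hN1 : 1 ≤ N := card_pos.2 ⟨q, hq⟩
    have h2 : (2 * R) ^ N = (2 * R) ^ (N - 1) * (2 * R) := by
      rw [← pow_succ]
      congr 1
      omega
    have h3 : 0 < (2 * R) ^ (N - 1) := by positivity
    rw [hρ, h2, div_mul_eq_mul_div, div_le_iff₀ (by positivity)]
    have h4 : P * R ≤ ‖z q.1 - z q.2‖ * (2 * R) ^ (N - 1) * R :=
      mul_le_mul_of_nonneg_right h1 hR.le
    have h5 : 0 ≤ ‖z q.1 - z q.2‖ * (2 * R) ^ (N - 1) * R := by positivity
    nlinarith
  have hall : ∀ i j, i ≠ j → ρ ≤ ‖z i - z j‖ := by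
    intro i j hij
    rcases lt_or_gt_of_ne hij with h1 | h1
    · exact hpair (i, j) (HG.mem_prs.2 h1)
    · rw [norm_sub_rev]
      exact hpair (j, i) (HG.mem_prs.2 h1)
  obtain ⟨h1, h2⟩ := h z R ρ hρ0 hρR hzR hall
  rw [← vol_eq z (dm_one hm), dm_one hm, wt_one, al_one hm] at h1 h2
  refine ⟨h1, ?_⟩
  have e1 : Real.log (R / ρ) = N * Real.log (2 * R) - 1 / 2 * Real.log Δ := by
    rw [hkn, Real.log_pow, Real.log_div hR.ne' hρ0.ne', hρ, Real.log_mul (by positivity) hR.ne',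
      Real.log_div hP0.ne' h2R.ne', Real.log_pow]
    push_cast
    ring
  rw [e1] at h2
  push_cast at h2
  exact h2

end Pool.Agent.H433.CR
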